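import Pool.Agent.Q303.CM.Alg

/-!
Objects of abelian type.
-/

set_option linter.style.haveILetI false
set_option linter.unusedSectionVars false

open CategoryTheory CategoryTheory.Limits MonoidalCategory ExactPairing BraidedCategory

open scoped TensorProduct

universe v u

namespace Pool.Agent.Q303.CM

/-- the multiset of products. -/
noncomputable def mprod (S T : Multiset ℂ) : Multiset ℂ := (S ×ˢ T).map (fun p => p.1 * p.2)

lemma psum_mprod (S T : Multiset ℂ) (n : ℕ) : psum (mprod S T) n = psum S n * psum T n := by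
  unfold psum mprod
  induction S using Multiset.induction_on with
  | empty => simp
  | cons a S ih =>
    rw [Multiset.cons_product, Multiset.map_add, Multiset.map_add, Multiset.sum_add, ih,
      Multiset.map_cons, Multiset.sum_cons, add_mul, Multiset.map_map, Multiset.map_map]
    congr 1
    rw [← Multiset.sum_map_mul_left]
    congr 1
    refine Multiset.map_congr rfl fun b _ => ?_
    simp [mul_pow]

lemma mem_mprod {S T : Multiset ℂ} {x : ℂ} (h : x ∈ mprod S T) :
    ∃ a ∈ S, ∃ b ∈ T, x = a * b := by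
  unfold mprod at h
  rw [Multiset.mem_map] at h
  obtain ⟨⟨a, b⟩, hab, rfl⟩ := h
  rw [Multiset.mem_product] at hab
  exact ⟨a, hab.1, b, hab.2, rfl⟩

lemma mprod_zero (S : Multiset ℂ) : mprod S 0 = 0 := by simp [mprod]
lemma zero_mprod (S : Multiset ℂ) : mprod 0 S = 0 := by simp [mprod]

variable {C : Type u} [Category.{v} C] [Abelian C] [Linear ℚ C] [MonoidalCategory C]
  [MonoidalPreadditive C] [MonoidalLinear ℚ C] [SymmetricCategory C] [RightRigidCategory C]
  {q : ℝ}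

namespace FrobeniusStructure

/-- Künneth formula for the eigenvalues. -/
theorem char_tensor (D : FrobeniusStructure q C) (hq : 1 < q) (M N : C) :
    D.Ev (M ⊗ N) = mprod (D.Ev M) (D.Ev N) + mprod (D.Od M) (D.Od N) ∧
      D.Od (M ⊗ N) = mprod (D.Ev M) (D.Od N) + mprod (D.Od M) (D.Ev N) := by
  have hq0 : (q : ℝ) ≠ 0 := by linarith
  have h2 : D.Ev (M ⊗ N) + (mprod (D.Ev M) (D.Od N) + mprod (D.Od M) (D.Ev N)) =
      (mprod (D.Ev M) (D.Ev N) + mprod (D.Od M) (D.Od N)) + D.Od (M ⊗ N) := by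
    refine eq_of_psum fun n => ?_
    obtain ⟨a, ha⟩ := D.exists_tr (D.Fr M ^ n : End M)
    obtain ⟨b, hb⟩ := D.exists_tr (D.Fr N ^ n : End N)
    have e1 := D.lef M n ha
    have e1' := D.lef N n hb
    have e2 : catTrace (D.Fr (M ⊗ N) ^ n : End (M ⊗ N)) = (a * b) • 𝟙 (𝟙_ C) := by
      rw [D.pow_tensor]
      exact catTrace_tensor _ _ _ _ ha hb
    have e3 := D.lef _ n e2
    push_cast at e3
    rw [e1, e1'] at e3
    simp only [psum_add, psum_mprod]
    linear_combination -e3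
  refine split_eq (fun α => ∃ w : ℤ, ‖α‖ ^ 2 = q ^ (2 * w)) h2 (D.weight_even _) ?_
    (fun x hx => D.parity hq hx) ?_
  · intro x hx
    rcases Multiset.mem_add.1 hx with hx | hx
    · obtain ⟨a, ha, b, hb, rfl⟩ := mem_mprod hx
      obtain ⟨w, hw⟩ := D.weight_even _ a ha
      obtain ⟨w', hw'⟩ := D.weight_even _ b hb
      refine ⟨w + w', ?_⟩
      rw [norm_mul, mul_pow, hw, hw', ← zpow_add₀ hq0]
      congr 1; ring
    · obtain ⟨a, ha, b, hb, rfl⟩ := mem_mprod hx
      obtain ⟨w, hw⟩ := D.weight_odd _ a ha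
      obtain ⟨w', hw'⟩ := D.weight_odd _ b hb
      refine ⟨w + w' + 1, ?_⟩
      rw [norm_mul, mul_pow, hw, hw', ← zpow_add₀ hq0]
      congr 1; ring
  · have hno : ∀ x : ℂ, (∃ w : ℤ, ‖x‖ ^ 2 = q ^ (2 * w + 1)) → ¬ ∃ w : ℤ, ‖x‖ ^ 2 = q ^ (2 * w) := by
      rintro x ⟨w, hw⟩ ⟨w', hw'⟩
      rw [hw] at hw'
      have := zpow_right_injective₀ (by linarith) hq.ne' hw'
      omega
    intro x hx
    rcases Multiset.mem_add.1 hx with hx | hx
    · obtain ⟨a, ha, b, hb, rfl⟩ := mem_mprod hx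
      obtain ⟨w, hw⟩ := D.weight_even _ a ha
      obtain ⟨w', hw'⟩ := D.weight_odd _ b hb
      refine hno _ ⟨w + w', ?_⟩
      rw [norm_mul, mul_pow, hw, hw', ← zpow_add₀ hq0]
      congr 1; ring
    · obtain ⟨a, ha, b, hb, rfl⟩ := mem_mprod hx
      obtain ⟨w, hw⟩ := D.weight_odd _ a ha
      obtain ⟨w', hw'⟩ := D.weight_even _ b hb
      refine hno _ ⟨w + w', ?_⟩
      rw [norm_mul, mul_pow, hw, hw', ← zpow_add₀ hq0]
      congr 1; ring

/-- an action of a finite étale `ℚ`-algebra `E` on an object `T` of pure parity, with trace `±`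
the trace of `E`. -/
structure EtaleAction (D : FrobeniusStructure q C) (T : C) (E : Type) [CommRing E]
    [Algebra ℚ E] where
  ρ : E →ₐ[ℚ] End T
  σ : ℤˣ
  trace_eq : ∀ x : E,
    catTrace (ρ x : T ⟶ T) = ((σ : ℤ) * Algebra.trace ℚ E x : ℚ) • 𝟙 (𝟙_ C)
  pure : D.Ev T = 0 ∨ D.Od T = 0

/-- left action on a tensor product. -/
noncomputable def actL {V : C} (T : C) {E : Type} [CommRing E] [Algebra ℚ E]
    (ρ : E →ₐ[ℚ] End V) : E →ₐ[ℚ] End (V ⊗ T) where
  toFun x := (ρ x : V ⟶ V) ▷ T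
  map_one' := by
    rw [map_one]; exact id_whiskerRight _ _
  map_mul' x y := by
    rw [map_mul]
    exact comp_whiskerRight (ρ y : V ⟶ V) (ρ x : V ⟶ V) T
  map_zero' := by
    rw [map_zero]; exact MonoidalPreadditive.zero_whiskerRight
  map_add' x y := by
    rw [map_add]; exact MonoidalPreadditive.add_whiskerRight _ _
  commutes' r := by
    rw [Algebra.algebraMap_eq_smul_one, map_smul, map_one, Algebra.algebraMap_eq_smul_one]
    refine (MonoidalLinear.smul_whiskerRight r (𝟙 V) T).trans ?_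
    rw [id_whiskerRight]
    rfl

/-- right action on a tensor product. -/
noncomputable def actR (V : C) {T : C} {E : Type} [CommRing E] [Algebra ℚ E]
    (ρ : E →ₐ[ℚ] End T) : E →ₐ[ℚ] End (V ⊗ T) where
  toFun x := V ◁ (ρ x : T ⟶ T)
  map_one' := by
    rw [map_one]; exact whiskerLeft_id _ _
  map_mul' x y := by
    rw [map_mul]
    exact whiskerLeft_comp V (ρ y : T ⟶ T) (ρ x : T ⟶ T)
  map_zero' := by
    rw [map_zero]; exact MonoidalPreadditive.whiskerLeft_zero
  map_add' x y := by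
    rw [map_add]; exact MonoidalPreadditive.whiskerLeft_add _ _
  commutes' r := by
    rw [Algebra.algebraMap_eq_smul_one, map_smul, map_one, Algebra.algebraMap_eq_smul_one]
    refine (MonoidalLinear.whiskerLeft_smul V r (𝟙 T)).trans ?_
    rw [whiskerLeft_id]
    rfl

lemma act_commute {V T : C} {E F : Type} [CommRing E] [Algebra ℚ E] [CommRing F] [Algebra ℚ F]
    (ρ : E →ₐ[ℚ] End V) (τ : F →ₐ[ℚ] End T) (x : E) (y : F) :
    Commute (actL T ρ x) (actR V τ y) := by
  change (actR V τ y : V ⊗ T ⟶ V ⊗ T) ≫ (actL T ρ x : V ⊗ T ⟶ V ⊗ T)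
    = (actL T ρ x : V ⊗ T ⟶ V ⊗ T) ≫ (actR V τ y : V ⊗ T ⟶ V ⊗ T)
  change V ◁ (τ y : T ⟶ T) ≫ (ρ x : V ⟶ V) ▷ T = (ρ x : V ⟶ V) ▷ T ≫ V ◁ (τ y : T ⟶ T)
  rw [whisker_exchange]

/-- the action of `E ⊗ F` on `V ⊗ T`. -/
noncomputable def actT {V T : C} {E F : Type} [CommRing E] [Algebra ℚ E] [CommRing F]
    [Algebra ℚ F] (ρ : E →ₐ[ℚ] End V) (τ : F →ₐ[ℚ] End T) :
    (E ⊗[ℚ] F) →ₐ[ℚ] End (V ⊗ T) :=
  Algebra.TensorProduct.lift (actL T ρ) (actR V τ) (act_commute ρ τ)

lemma actT_tmul {V T : C} {E F : Type} [CommRing E] [Algebra ℚ E] [CommRing F]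
    [Algebra ℚ F] (ρ : E →ₐ[ℚ] End V) (τ : F →ₐ[ℚ] End T) (x : E) (y : F) :
    (actT ρ τ (x ⊗ₜ y) : V ⊗ T ⟶ V ⊗ T) = (ρ x : V ⟶ V) ⊗ₘ (τ y : T ⟶ T) := by
  unfold actT
  rw [Algebra.TensorProduct.lift_tmul, MonoidalCategory.tensorHom_def']
  rfl

lemma trace_tmul' {E F : Type} [CommRing E] [Algebra ℚ E] [CommRing F]
    [Algebra ℚ F] [Module.Finite ℚ E] [Module.Finite ℚ F] (x : E) (y : F) :
    Algebra.trace ℚ (E ⊗[ℚ] F) (x ⊗ₜ y) = Algebra.trace ℚ E x * Algebra.trace ℚ F y := by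
  rw [Algebra.trace_apply, Algebra.trace_apply, Algebra.trace_apply,
    ← LinearMap.trace_tensorProduct']
  congr 1
  ext a b
  simp [Algebra.TensorProduct.tmul_mul_tmul]

/-- tensor products of étale actions. -/
noncomputable def EtaleAction.tensor {D : FrobeniusStructure q C} (hq : 1 < q) {V T : C}
    {E F : Type}
    [CommRing E] [Algebra ℚ E] [CommRing F] [Algebra ℚ F] [Module.Finite ℚ E]
    [Module.Finite ℚ F] (a : EtaleAction D V E) (b : EtaleAction D T F) :
    EtaleAction D (V ⊗ T) (E ⊗[ℚ] F) where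
  ρ := actT a.ρ b.ρ
  σ := a.σ * b.σ
  trace_eq x := by
    induction x using TensorProduct.induction_on with
    | zero =>
      rw [map_zero, map_zero, mul_zero, zero_smul]
      have h : catTrace (0 : V ⊗ T ⟶ V ⊗ T) = 0 := by
        have := catTrace_smul (0 : V ⊗ T ⟶ V ⊗ T) (0 : ℚ)
        rw [zero_smul, zero_smul] at this
        exact this
      exact h
    | tmul x y =>
      rw [actT_tmul, catTrace_tensor _ _ _ _ (a.trace_eq x) (b.trace_eq y), trace_tmul']
      congr 1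
      push_cast
      ring
    | add x y hx hy =>
      rw [map_add, map_add, mul_add, add_smul, ← hx, ← hy]
      exact catTrace_add _ _
  pure := by
    obtain ⟨h1, h2⟩ := D.char_tensor hq V T
    rcases a.pure with ha | ha <;> rcases b.pure with hb | hb
    · right; rw [h2, ha, hb]; simp [mprod_zero, zero_mprod]
    · left; rw [h1, ha, hb]; simp [mprod_zero, zero_mprod]
    · left; rw [h1, ha, hb]; simp [mprod_zero, zero_mprod]
    · right; rw [h2, ha, hb]; simp [mprod_zero, zero_mprod]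

end FrobeniusStructure

end Pool.Agent.Q303.CM
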