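import Pool.Agent.Q303.CM.AbType

/-!
Numerically trivial morphisms between objects of abelian type vanish.
-/

set_option linter.style.haveILetI false
set_option linter.unusedSectionVars false

open CategoryTheory CategoryTheory.Limits MonoidalCategory ExactPairing BraidedCategory

open scoped TensorProduct

universe v u

namespace Pool.Agent.Q303.CM

variable {C : Type u} [Category.{v} C] [Abelian C] [Linear ℚ C] [MonoidalCategory C]
  [MonoidalPreadditive C] [MonoidalLinear ℚ C] [SymmetricCategory C] [RightRigidCategory C]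
  {q : ℝ}

namespace FrobeniusStructure

/-- The smallest class of objects which contains the objects of pure parity with an action of a
finite étale `ℚ`-algebra `E` whose trace is `±` the trace of `E` (such as `h¹` of an abelian variety,
and the invertible objects), and is closed under tensor products, direct sums and direct summands. -/
inductive AbelianType (D : FrobeniusStructure q C) : C → Prop
  | base (T : C) (E : Type) [CommRing E] [Algebra ℚ E] [Module.Finite ℚ E]
      [Algebra.FormallyUnramified ℚ E] (a : EtaleAction D T E) : AbelianType D T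
  | tensor (S T : C) (hS : AbelianType D S) (hT : AbelianType D T) : AbelianType D (S ⊗ T)
  | biprod (S T : C) (hS : AbelianType D S) (hT : AbelianType D T) : AbelianType D (S ⊞ T)
  | summand (S T : C) (i : S ⟶ T) (p : T ⟶ S) (h : i ≫ p = 𝟙 S) (hT : AbelianType D T) :
      AbelianType D S

/-- the endomorphisms which factor through sums of objects with an étale action. -/
def etSpan (D : FrobeniusStructure q C) (T : C) : Submodule ℚ (T ⟶ T) :=
  Submodule.span ℚ {f : T ⟶ T | ∃ (S : C) (E : Type) (_ : CommRing E) (_ : Algebra ℚ E)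
    (_ : Module.Finite ℚ E) (_ : Algebra.FormallyUnramified ℚ E) (_ : EtaleAction D S E)
    (a : T ⟶ S) (b : S ⟶ T), f = a ≫ b}

lemma etSpan_conj (D : FrobeniusStructure q C) {S T : C} (a : T ⟶ S) (b : S ⟶ T) {f : S ⟶ S}
    (hf : f ∈ etSpan D S) : a ≫ f ≫ b ∈ etSpan D T := by
  refine Submodule.span_induction ?_ ?_ ?_ ?_ hf
  · rintro _ ⟨U, E, i1, i2, i3, i4, e, c, d, rfl⟩
    exact Submodule.subset_span ⟨U, E, i1, i2, i3, i4, e, a ≫ c, d ≫ b, by simp⟩
  · simp
  · rintro x y _ _ hx hy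
    rw [Preadditive.add_comp, Preadditive.comp_add]
    exact Submodule.add_mem _ hx hy
  · rintro r x _ hx
    rw [Linear.smul_comp, Linear.comp_smul]
    exact Submodule.smul_mem _ _ hx

lemma etSpan_tensor (D : FrobeniusStructure q C) (hq : 1 < q) {S T : C} {f : S ⟶ S}
    (hf : f ∈ etSpan D S) {g : T ⟶ T} (hg : g ∈ etSpan D T) : f ⊗ₘ g ∈ etSpan D (S ⊗ T) := by
  refine Submodule.span_induction ?_ ?_ ?_ ?_ hf
  · rintro _ ⟨U, E, i1, i2, i3, i4, e, a, b, rfl⟩
    refine Submodule.span_induction ?_ ?_ ?_ ?_ hg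
    · rintro _ ⟨V, F, j1, j2, j3, j4, e', c, d, rfl⟩
      haveI : Algebra.FormallyUnramified ℚ (E ⊗[ℚ] F) :=
        Algebra.FormallyUnramified.comp ℚ E (E ⊗[ℚ] F)
      refine Submodule.subset_span ⟨U ⊗ V, E ⊗[ℚ] F, inferInstance, inferInstance, inferInstance,
        inferInstance, e.tensor hq e', a ⊗ₘ c, b ⊗ₘ d, ?_⟩
      rw [tensorHom_comp_tensorHom]
    · simp
    · rintro x y _ _ hx hy
      rw [MonoidalPreadditive.tensor_add]
      exact Submodule.add_mem _ hx hy
    · rintro r x _ hx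
      have : ((a ≫ b) ⊗ₘ (r • x)) = r • ((a ≫ b) ⊗ₘ x) := by
        rw [MonoidalCategory.tensorHom_def, MonoidalCategory.tensorHom_def,
          MonoidalLinear.whiskerLeft_smul, Linear.comp_smul]
      rw [this]
      exact Submodule.smul_mem _ _ hx
  · simp
  · rintro x y _ _ hx hy
    rw [MonoidalPreadditive.add_tensor]
    exact Submodule.add_mem _ hx hy
  · rintro r x _ hx
    have : ((r • x) ⊗ₘ g) = r • (x ⊗ₘ g) := by
      rw [MonoidalCategory.tensorHom_def, MonoidalCategory.tensorHom_def,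
        MonoidalLinear.smul_whiskerRight, Linear.smul_comp]
    rw [this]
    exact Submodule.smul_mem _ _ hx

theorem AbelianType.id_mem {D : FrobeniusStructure q C} (hq : 1 < q) {T : C}
    (h : AbelianType D T) : 𝟙 T ∈ etSpan D T := by
  induction h with
  | base T E a =>
    exact Submodule.subset_span ⟨T, E, inferInstance, inferInstance, inferInstance,
      inferInstance, a, 𝟙 T, 𝟙 T, by simp⟩
  | tensor S T _ _ ihS ihT =>
    rw [← id_tensorHom_id]
    exact D.etSpan_tensor hq ihS ihT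
  | biprod S T _ _ ihS ihT =>
    have h1 := D.etSpan_conj (biprod.fst : S ⊞ T ⟶ S) biprod.inl ihS
    have h2 := D.etSpan_conj (biprod.snd : S ⊞ T ⟶ T) biprod.inr ihT
    have h3 : 𝟙 (S ⊞ T) = biprod.fst ≫ 𝟙 S ≫ biprod.inl + biprod.snd ≫ 𝟙 T ≫ biprod.inr := by
      rw [Category.id_comp, Category.id_comp, biprod.total]
    rw [h3]
    exact Submodule.add_mem _ h1 h2
  | summand S T i p h _ ihT =>
    have h1 := D.etSpan_conj i p ihT
    rw [Category.id_comp, h] at h1
    exact h1

/-- **Numerically trivial cycles on objects of abelian type vanish.** -/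
theorem AbelianType.zero_of_numTriv {D : FrobeniusStructure q C} (hq : 1 < q) {T : C}
    (h : AbelianType D T) (z : 𝟙_ C ⟶ T) (hz : ∀ w : T ⟶ 𝟙_ C, z ≫ w = 0) : z = 0 := by
  have key : ∀ f ∈ etSpan D T, z ≫ f = 0 := by
    intro f hf
    refine Submodule.span_induction ?_ ?_ ?_ ?_ hf
    · rintro _ ⟨S, E, i1, i2, i3, i4, e, a, b, rfl⟩
      haveI : IsReduced E := Algebra.FormallyUnramified.isReduced_of_field ℚ E
      have h1 : z ≫ a = 0 := by
        refine D.zero_of_numTriv hq e.pure e.ρ e.σ e.trace_eq (z ≫ a) fun w => ?_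
        rw [Category.assoc]
        exact hz _
      rw [← Category.assoc, h1, zero_comp]
    · simp
    · rintro x y _ _ hx hy
      rw [Preadditive.comp_add, hx, hy, add_zero]
    · rintro r x _ hx
      rw [Linear.comp_smul, hx, smul_zero]
  rw [← key _ (h.id_mem hq), Category.comp_id]

/-- **Numerically trivial morphisms vanish.** -/
theorem AbelianType.zero_of_negligible {D : FrobeniusStructure q C} (hq : 1 < q) {M N : C}
    (h : AbelianType D (N ⊗ Mᘁ)) (f : M ⟶ N) (hf : ∀ g : N ⟶ M, catTrace (f ≫ g) = 0) :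
    f = 0 := by
  have h1 : η_ M Mᘁ ≫ f ▷ Mᘁ = 0 := by
    refine h.zero_of_numTriv hq _ fun w => ?_
    -- `w` comes from a morphism `g : N ⟶ M`
    letI := exactPairing_swap M (Mᘁ)
    set g' : N ⟶ 𝟙_ C ⊗ M := tensorRightHomEquiv N (Mᘁ) M (𝟙_ C) w with hg'
    have hw : w = (g' ≫ (λ_ M).hom) ▷ Mᘁ ≫ (β_ M Mᘁ).hom ≫ ε_ M Mᘁ := by
      have h2 : w = (tensorRightHomEquiv N (Mᘁ) M (𝟙_ C)).symm g' := by
        rw [hg', Equiv.symm_apply_apply]
      have h3 : (tensorRightHomEquiv N (Mᘁ) M (𝟙_ C)).symm g' =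
          g' ▷ Mᘁ ≫ (α_ (𝟙_ C) M Mᘁ).hom ≫ (𝟙_ C) ◁ ((β_ M Mᘁ).hom ≫ ε_ M Mᘁ)
            ≫ (ρ_ (𝟙_ C)).hom := rfl
      rw [h2, h3]
      monoidal
    have h4 := hf (g' ≫ (λ_ M).hom)
    rw [hw, Category.assoc, ← comp_whiskerRight_assoc]
    exact h4
  have h5 : tensorRightHomEquiv (𝟙_ C) M Mᘁ N ((λ_ M).hom ≫ f) = η_ M Mᘁ ≫ f ▷ Mᘁ := by
    simp only [tensorRightHomEquiv, Equiv.coe_fn_mk]
    monoidal
  have h6 : tensorRightHomEquiv (𝟙_ C) M Mᘁ N 0 = 0 := by
    simp [tensorRightHomEquiv]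
  have h7 : (λ_ M).hom ≫ f = 0 := by
    apply (tensorRightHomEquiv (𝟙_ C) M Mᘁ N).injective
    rw [h5, h6, h1]
  exact (cancel_epi (λ_ M).hom).1 (by rw [h7, comp_zero])

end FrobeniusStructure

end Pool.Agent.Q303.CM
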