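import Pool.Agent.Q303.CM.Dim

/-!
Numerically trivial maps `𝟙 ⟶ T` for objects `T` of pure parity with an action of an
étale algebra of the maximal degree.
-/

set_option linter.style.haveILetI false
set_option linter.unusedSectionVars false

open CategoryTheory CategoryTheory.Limits MonoidalCategory ExactPairing BraidedCategory

universe v u

namespace Pool.Agent.Q303.CM

section Idem

variable {R : Type*} [CommRing R]

/-- ideals of a reduced artinian ring are generated by idempotents. -/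
lemma exists_idem [IsArtinianRing R] [IsReduced R] (I : Ideal R) :
    ∃ e : R, e * e = e ∧ ∀ x, x ∈ I ↔ x * e = 0 := by
  haveI : IsSemisimpleRing R := IsArtinianRing.isSemisimpleRing_of_isReduced R
  obtain ⟨J, hJ⟩ := exists_isCompl I
  have h1 : (1 : R) ∈ I ⊔ J := by rw [hJ.sup_eq_top]; trivial
  obtain ⟨e', he', e, he, hee⟩ := Submodule.mem_sup.1 h1
  have hxe : ∀ x ∈ I, x * e = 0 := by
    intro x hx
    have : x * e ∈ I ⊓ J := ⟨I.mul_mem_right _ hx, J.mul_mem_left _ he⟩
    rw [hJ.inf_eq_bot] at this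
    exact this
  refine ⟨e, ?_, fun x => ⟨hxe x, fun hx => ?_⟩⟩
  · have := hxe e' he'
    have h2 : (e' + e) * e = e := by rw [hee, one_mul]
    rw [add_mul, this, zero_add] at h2
    exact h2
  · have h2 : x * (e' + e) = x := by rw [hee, mul_one]
    rw [mul_add, hx, add_zero] at h2
    rw [← h2]
    exact I.mul_mem_left _ he'

lemma trace_idem [Algebra ℚ R] [Module.Finite ℚ R] (e : R) (he : e * e = e) :
    Algebra.trace ℚ R e
      = (Module.finrank ℚ (LinearMap.range (Algebra.lmul ℚ R e)) : ℚ) := by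
  rw [Algebra.trace_apply]
  apply LinearMap.IsProj.trace
  refine ⟨fun x => ⟨x, rfl⟩, ?_⟩
  rintro _ ⟨y, rfl⟩
  change e * (e * y) = e * y
  rw [← mul_assoc, he]

end Idem

variable {C : Type u} [Category.{v} C] [Abelian C] [Linear ℚ C] [MonoidalCategory C]
  [MonoidalPreadditive C] [MonoidalLinear ℚ C] [SymmetricCategory C] [RightRigidCategory C]
  {q : ℝ}

lemma catTrace_comm {A B : C} (f : A ⟶ B) (g : B ⟶ A) : catTrace (f ≫ g) = catTrace (g ≫ f) := by
  have h : ∀ {M : C} (f : M ⟶ M), catTrace f = η_ M Mᘁ ≫ f ▷ Mᘁ ≫ ev' M := fun f => rfl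
  rw [h, h, comp_whiskerRight, Category.assoc, ← coevaluation_comp_rightAdjointMate_assoc,
    whisker_exchange_assoc, ← ev'_mate, comp_whiskerRight, Category.assoc]

namespace FrobeniusStructure

/-- The structure of `T` needed: pure parity and an action of a commutative
semisimple algebra whose trace is `±` the trace of the algebra. -/
theorem zero_of_numTriv (D : FrobeniusStructure q C) (hq : 1 < q) {T : C}
    (hpure : D.Ev T = 0 ∨ D.Od T = 0) {R : Type*} [CommRing R] [Algebra ℚ R]
    [Module.Finite ℚ R] [IsReduced R] (ρ : R →ₐ[ℚ] End T) (σ : ℤˣ)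
    (htr : ∀ x : R, catTrace (ρ x : T ⟶ T) = ((σ : ℤ) * Algebra.trace ℚ R x : ℚ) • 𝟙 (𝟙_ C))
    (z : 𝟙_ C ⟶ T) (hz : ∀ w : T ⟶ 𝟙_ C, z ≫ w = 0) : z = 0 := by
  haveI : IsArtinianRing R := IsArtinianRing.of_finite ℚ R
  -- the annihilator
  let ann : Ideal R :=
    { carrier := {x | z ≫ (ρ x : T ⟶ T) = 0}
      add_mem' := by
        intro a b ha hb
        change z ≫ (ρ (a + b) : T ⟶ T) = 0
        rw [map_add]
        change z ≫ ((ρ a : T ⟶ T) + (ρ b : T ⟶ T)) = 0
        rw [Preadditive.comp_add]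
        have ha' : z ≫ (ρ a : T ⟶ T) = 0 := ha
        have hb' : z ≫ (ρ b : T ⟶ T) = 0 := hb
        rw [ha', hb', add_zero]
      zero_mem' := by
        change z ≫ (ρ 0 : T ⟶ T) = 0
        rw [map_zero]
        exact comp_zero
      smul_mem' := by
        intro c x hx
        change z ≫ (ρ (c * x) : T ⟶ T) = 0
        rw [map_mul]
        change z ≫ ((ρ x : T ⟶ T) ≫ (ρ c : T ⟶ T)) = 0
        have hx' : z ≫ (ρ x : T ⟶ T) = 0 := hx
        rw [← Category.assoc, hx', zero_comp] }
  obtain ⟨e, hee, hann⟩ := exists_idem ann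
  have hann' : ∀ x : R, z ≫ (ρ x : T ⟶ T) = 0 ↔ x * e = 0 := hann
  have hmul : ∀ x y : R, (ρ (x * y) : T ⟶ T) = (ρ y : T ⟶ T) ≫ (ρ x : T ⟶ T) := by
    intro x y; rw [map_mul]; rfl
  have hze : z ≫ (ρ e : T ⟶ T) = z := by
    have h1 : z ≫ (ρ (1 - e) : T ⟶ T) = 0 := by
      rw [hann', sub_mul, one_mul, hee, sub_self]
    have h3 : (ρ (1 - e) : T ⟶ T) = 𝟙 T - (show T ⟶ T from ρ e) := by
      rw [map_sub, map_one]; rfl
    rw [h3, Preadditive.comp_sub, Category.comp_id, sub_eq_zero] at h1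
    exact h1.symm
  -- split the idempotent
  obtain ⟨U, ι, π, hιπ, hπι⟩ := IsIdempotentComplete.idempotents_split T (ρ e : T ⟶ T) (by
    rw [← hmul, hee])
  haveI : Mono ι := (SplitMono.mk π hιπ).mono
  have hU : D.Ev U = 0 ∨ D.Od U = 0 := by
    have h := D.char_ses hq (SES.of_mono ι)
    rcases hpure with h0 | h0
    · left
      rw [h0] at h
      exact (add_eq_zero.1 h.1.symm).1
    · right
      rw [h0] at h
      exact (add_eq_zero.1 h.2.symm).1
  have htrU : catTrace (𝟙 U) = ((σ : ℤ) * Algebra.trace ℚ R e : ℚ) • 𝟙 (𝟙_ C) := by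
    rw [← htr, ← hπι, catTrace_comm, hιπ]
  have hlef := D.lef U 0 (r := ((σ : ℤ) * Algebra.trace ℚ R e : ℚ)) (by
    rw [pow_zero]; exact htrU)
  rw [psum_card, psum_card, trace_idem e hee] at hlef
  set d := Module.finrank ℚ (LinearMap.range (Algebra.lmul ℚ R e)) with hd
  have hlef' : ((σ : ℤ) : ℤ) * (d : ℤ) = ((D.Ev U).card : ℤ) - ((D.Od U).card : ℤ) := by
    have : (((σ : ℤ) * (d : ℤ) : ℤ) : ℂ)
        = (((((D.Ev U).card : ℤ) - ((D.Od U).card : ℤ) : ℤ)) : ℂ) := by
      push_cast
      push_cast at hlef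
      exact hlef
    exact_mod_cast this
  have hcard : (D.Ev U).card + (D.Od U).card = d := by
    have hc : ∀ a b : ℕ, (a = 0 ∨ b = 0) → ((σ : ℤ) : ℤ) * (d : ℤ) = (a : ℤ) - (b : ℤ) →
        a + b = d := by
      intro a b hab h
      rcases Int.units_eq_one_or σ with hσ | hσ
      · rw [hσ, Units.val_one, one_mul] at h
        omega
      · rw [hσ, Units.val_neg, Units.val_one, neg_one_mul] at h
        omega
    refine hc _ _ ?_ hlef'
    rcases hU with h0 | h0
    · left; rw [h0]; rfl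
    · right; rw [h0]; rfl
  -- the dimension of `Hom(𝟙, U)`
  haveI := D.finite_hom hq U
  have hdim : d ≤ Module.finrank ℚ (𝟙_ C ⟶ U) := by
    let φ : R →ₗ[ℚ] (𝟙_ C ⟶ U) :=
      { toFun := fun x => z ≫ (ρ x : T ⟶ T) ≫ π
        map_add' := by
          intro x y
          rw [map_add]
          change z ≫ ((ρ x : T ⟶ T) + (ρ y : T ⟶ T)) ≫ π = _
          rw [Preadditive.add_comp, Preadditive.comp_add]
        map_smul' := by
          intro r x
          rw [map_smul]
          change z ≫ (r • (ρ x : T ⟶ T)) ≫ π = _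
          rw [Linear.smul_comp, Linear.comp_smul]
          rfl }
    have hinj : Function.Injective (φ.domRestrict (LinearMap.range (Algebra.lmul ℚ R e))) := by
      rw [injective_iff_map_eq_zero]
      rintro ⟨_, y, rfl⟩ hy
      have hy' : z ≫ (ρ (e * y) : T ⟶ T) ≫ π = 0 := hy
      have h1 : z ≫ (ρ (e * y) : T ⟶ T) ≫ π ≫ ι = 0 := by
        have := congrArg (fun s => s ≫ ι) hy'
        simpa using this
      rw [hπι, ← hmul, ← mul_assoc, hee, hann'] at h1
      have h2 : e * y = 0 := by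
        rw [mul_assoc, mul_comm y e, ← mul_assoc, hee] at h1
        exact h1
      apply Subtype.ext
      exact h2
    exact LinearMap.finrank_le_finrank_of_injective hinj
  have hspl := D.id_mem_unitSpan hq U (by rw [hcard]; exact hdim)
  have hz' : z ≫ π = 0 := by
    apply zero_of_unitSpan hspl
    intro w
    rw [Category.assoc]
    exact hz _
  rw [← hze, ← hπι, ← Category.assoc, hz', zero_comp]

end FrobeniusStructure

end Pool.Agent.Q303.CM
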