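import Mathlib

/-!
Exactness of the tensor product in a rigid braided abelian category and the
behaviour of the duality on short exact sequences.
-/

set_option linter.style.haveILetI false
set_option linter.unusedSectionVars false

open CategoryTheory CategoryTheory.Limits MonoidalCategory ExactPairing BraidedCategory

universe v u

namespace Pool.Agent.Q303.CM

variable {C : Type u} [Category.{v} C] [Abelian C] [MonoidalCategory C]
  [MonoidalPreadditive C] [BraidedCategory C] [RightRigidCategory C]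

instance plimL (X : C) : PreservesFiniteLimits (tensorLeft X) := by
  haveI := (tensorLeftAdjunction X Xᘁ).rightAdjoint_preservesLimits
  exact PreservesLimits.preservesFiniteLimits _

instance pcolimL (X : C) : PreservesFiniteColimits (tensorLeft X) := by
  letI : ExactPairing (Xᘁ) X := exactPairing_swap X (Xᘁ)
  haveI := (tensorLeftAdjunction (Xᘁ) X).leftAdjoint_preservesColimits
  exact PreservesColimits.preservesFiniteColimits _

instance pcolimR (X : C) : PreservesFiniteColimits (tensorRight X) := by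
  haveI := (tensorRightAdjunction X Xᘁ).leftAdjoint_preservesColimits
  exact PreservesColimits.preservesFiniteColimits _

instance plimR (X : C) : PreservesFiniteLimits (tensorRight X) := by
  letI : ExactPairing (Xᘁ) X := exactPairing_swap X (Xᘁ)
  haveI := (tensorRightAdjunction (Xᘁ) X).rightAdjoint_preservesLimits
  exact PreservesLimits.preservesFiniteLimits _

variable {A B Q : C} {i : A ⟶ B} {p : B ⟶ Q} {w : i ≫ p = 0}

/-- short exactness of the sequence `A → B → Q`. -/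
def SES (i : A ⟶ B) (p : B ⟶ Q) : Prop :=
  ∃ w : i ≫ p = 0, (ShortComplex.mk i p w).ShortExact

omit [MonoidalCategory C] [MonoidalPreadditive C] [BraidedCategory C] [RightRigidCategory C] in
lemma SES.mono (h : SES i p) : Mono i := h.2.mono_f

omit [MonoidalCategory C] [MonoidalPreadditive C] [BraidedCategory C] [RightRigidCategory C] in
lemma SES.epi (h : SES i p) : Epi p := h.2.epi_g

omit [MonoidalCategory C] [MonoidalPreadditive C] [BraidedCategory C] [RightRigidCategory C] in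
lemma SES.zero (h : SES i p) : i ≫ p = 0 := h.1

omit [MonoidalCategory C] [MonoidalPreadditive C] [BraidedCategory C] [RightRigidCategory C] in
lemma SES.lift (h : SES i p) {T : C} (k : T ⟶ B) (hk : k ≫ p = 0) : ∃ l : T ⟶ A, l ≫ i = k := by
  haveI := h.2.mono_f
  exact ⟨h.2.exact.lift k hk, h.2.exact.lift_f k hk⟩

omit [MonoidalCategory C] [MonoidalPreadditive C] [BraidedCategory C] [RightRigidCategory C] in
lemma SES.desc (h : SES i p) {T : C} (k : B ⟶ T) (hk : i ≫ k = 0) : ∃ l : Q ⟶ T, p ≫ l = k := by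
  haveI := h.2.epi_g
  exact ⟨h.2.exact.desc k hk, h.2.exact.g_desc k hk⟩

omit [MonoidalCategory C] [MonoidalPreadditive C] [BraidedCategory C] [RightRigidCategory C] in
lemma SES.of_mono (i : A ⟶ B) [Mono i] : SES i (cokernel.π i) :=
  ⟨cokernel.condition i, ShortComplex.ShortExact.mk' (ShortComplex.exact_cokernel i)
    inferInstance inferInstance⟩

omit [MonoidalCategory C] [MonoidalPreadditive C] [BraidedCategory C] [RightRigidCategory C] in
lemma SES.of_epi (p : B ⟶ Q) [Epi p] : SES (kernel.ι p) p :=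
  ⟨kernel.condition p, ShortComplex.ShortExact.mk' (ShortComplex.exact_kernel p)
    inferInstance inferInstance⟩

lemma SES.whL (h : SES i p) (X : C) : SES (X ◁ i) (X ◁ p) := by
  refine ⟨by rw [← whiskerLeft_comp, h.zero, MonoidalPreadditive.whiskerLeft_zero], ?_⟩
  exact h.2.map_of_exact (tensorLeft X)

lemma SES.whR (h : SES i p) (X : C) : SES (i ▷ X) (p ▷ X) := by
  refine ⟨by rw [← comp_whiskerRight, h.zero, MonoidalPreadditive.zero_whiskerRight], ?_⟩
  exact h.2.map_of_exact (tensorRight X)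

instance mono_whL (X : C) (f : A ⟶ B) [Mono f] : Mono (X ◁ f) :=
  ((SES.of_mono f).whL X).mono

instance mono_whR (X : C) (f : A ⟶ B) [Mono f] : Mono (f ▷ X) :=
  ((SES.of_mono f).whR X).mono

instance epi_whL (X : C) (f : A ⟶ B) [Epi f] : Epi (X ◁ f) :=
  ((SES.of_epi f).whL X).epi

instance epi_whR (X : C) (f : A ⟶ B) [Epi f] : Epi (f ▷ X) :=
  ((SES.of_epi f).whR X).epi

/-- the name `𝟙 ⟶ M ⊗ T` of a morphism `Mᘁ ⟶ T`. -/
noncomputable def nm {M T : C} (t : Mᘁ ⟶ T) : 𝟙_ C ⟶ M ⊗ T := η_ M Mᘁ ≫ M ◁ t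

omit [Abelian C] [MonoidalPreadditive C] [BraidedCategory C] in
lemma nm_inj {M T : C} {t t' : Mᘁ ⟶ T} (h : nm t = nm t') : t = t' := by
  have key : ∀ s : Mᘁ ⟶ T, tensorLeftHomEquiv (𝟙_ C) M Mᘁ T ((ρ_ (Mᘁ)).hom ≫ s) = nm s := by
    intro s
    simp only [tensorLeftHomEquiv, Equiv.coe_fn_mk, nm]
    monoidal
  have h' := (tensorLeftHomEquiv (𝟙_ C) M Mᘁ T).injective ((key t).trans (h.trans (key t').symm))
  exact (cancel_epi _).1 h'

omit [Abelian C] [MonoidalPreadditive C] [BraidedCategory C] in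
lemma nm_surj {M T : C} (g : 𝟙_ C ⟶ M ⊗ T) : ∃ t : Mᘁ ⟶ T, nm t = g := by
  have key : ∀ s : Mᘁ ⟶ T, tensorLeftHomEquiv (𝟙_ C) M Mᘁ T ((ρ_ (Mᘁ)).hom ≫ s) = nm s := by
    intro s
    simp only [tensorLeftHomEquiv, Equiv.coe_fn_mk, nm]
    monoidal
  refine ⟨(ρ_ (Mᘁ)).inv ≫ (tensorLeftHomEquiv (𝟙_ C) M Mᘁ T).symm g, ?_⟩
  rw [← key, Iso.hom_inv_id_assoc, Equiv.apply_symm_apply]

omit [Abelian C] [MonoidalPreadditive C] [BraidedCategory C] in
lemma nm_mate (f : A ⟶ B) {T : C} (t : Aᘁ ⟶ T) : nm (fᘁ ≫ t) = nm t ≫ f ▷ T := by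
  unfold nm
  rw [whiskerLeft_comp, coevaluation_comp_rightAdjointMate_assoc, ← whisker_exchange,
    Category.assoc]

lemma SES.dual_epi (h : SES i p) : Epi (iᘁ) := by
  haveI := h.mono
  rw [Preadditive.epi_iff_cancel_zero]
  intro T t ht
  apply nm_inj
  have h1 := nm_mate i t
  rw [ht] at h1
  have h0 : ∀ M : C, nm (0 : Mᘁ ⟶ T) = 0 := fun M => by simp [nm]
  rw [h0] at h1
  rw [h0]
  exact (cancel_mono (i ▷ T)).1 (by rw [← h1, zero_comp])

lemma SES.dual_zero (h : SES i p) : pᘁ ≫ iᘁ = 0 := by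
  rw [← comp_rightAdjointMate, h.zero]
  apply nm_inj
  rw [← Category.comp_id ((0 : A ⟶ Q)ᘁ), nm_mate]
  simp [nm]

lemma SES.dual_desc (h : SES i p) {T : C} (t : Bᘁ ⟶ T) (ht : pᘁ ≫ t = 0) :
    ∃ s : Aᘁ ⟶ T, iᘁ ≫ s = t := by
  have h1 : nm t ≫ p ▷ T = 0 := by
    rw [← nm_mate, ht]; simp [nm]
  obtain ⟨g, hg⟩ := (h.whR T).lift (nm t) h1
  obtain ⟨s, hs⟩ := nm_surj g
  refine ⟨s, nm_inj ?_⟩
  rw [nm_mate, hs, hg]

lemma SES.dual_mono (h : SES i p) : Mono (pᘁ) := by
  haveI := h.epi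
  rw [Preadditive.mono_iff_cancel_zero]
  intro T t ht
  -- use the evaluation
  have h1 : (t ▷ Q) ≫ ε_ Q Qᘁ = 0 := by
    apply (cancel_epi (T ◁ p)).1
    rw [whisker_exchange_assoc, ← rightAdjointMate_comp_evaluation, ← Category.assoc,
      ← comp_whiskerRight, ht]
    simp
  have key : tensorRightHomEquiv T Q Qᘁ (𝟙_ C) (t ▷ Q ≫ ε_ Q Qᘁ) = t ≫ (λ_ (Qᘁ)).inv := by
    rw [tensorRightHomEquiv_whiskerRight_comp_evaluation]
  rw [h1] at key
  have h2 : tensorRightHomEquiv T Q Qᘁ (𝟙_ C) 0 = 0 := by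
    simp [tensorRightHomEquiv]
  rw [h2] at key
  exact (cancel_mono (λ_ (Qᘁ)).inv).1 (by rw [← key, zero_comp])

/-- the dual of a short exact sequence is short exact. -/
lemma SES.dual (h : SES i p) : SES (pᘁ) (iᘁ) := by
  haveI := h.dual_mono
  haveI := h.dual_epi
  refine ⟨h.dual_zero, ShortComplex.ShortExact.mk' ?_ inferInstance inferInstance⟩
  refine ShortComplex.exact_of_g_is_cokernel _ ?_
  refine CokernelCofork.IsColimit.ofπ' (f := pᘁ) (iᘁ) h.dual_zero (fun {T} t ht => ?_)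
  exact ⟨(h.dual_desc t ht).choose, (h.dual_desc t ht).choose_spec⟩

end Pool.Agent.Q303.CM
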