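import Mathlib

/-!
Power sums determine a multiset of complex numbers.
-/

namespace Pool.Agent.Q303.CM

/-- the `n`-th power sum. -/
noncomputable def psum (S : Multiset ℂ) (n : ℕ) : ℂ := (S.map (fun α => α ^ n)).sum

lemma psum_add (S T : Multiset ℂ) (n : ℕ) : psum (S + T) n = psum S n + psum T n := by
  simp [psum]

lemma psum_zero (n : ℕ) : psum 0 n = 0 := by simp [psum]

lemma psum_singleton (a : ℂ) (n : ℕ) : psum {a} n = a ^ n := by simp [psum]

lemma psum_card (S : Multiset ℂ) : psum S 0 = S.card := by simp [psum]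

/-- the character `n ↦ α ^ n` of `ℕ`. -/
noncomputable def chi (α : ℂ) : Multiplicative ℕ →* ℂ := powersHom ℂ α

lemma chi_injective : Function.Injective chi := by
  intro a b h
  have := congrArg (fun f : Multiplicative ℕ →* ℂ => f (Multiplicative.ofAdd 1)) h
  simpa [chi] using this

theorem eq_of_psum {S T : Multiset ℂ} (h : ∀ n : ℕ, psum S n = psum T n) : S = T := by
  classical
  have hli : LinearIndependent ℂ (fun α : ℂ => ((chi α : Multiplicative ℕ →* ℂ) :
      Multiplicative ℕ → ℂ)) :=
    (linearIndependent_monoidHom (Multiplicative ℕ) ℂ).comp chi chi_injective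
  set F : Finset ℂ := S.toFinset ∪ T.toFinset with hF
  have hexp : ∀ (U : Multiset ℂ), U.toFinset ⊆ F → ∀ n : ℕ,
      psum U n = ∑ α ∈ F, (U.count α : ℂ) * α ^ n := by
    intro U hU n
    unfold psum
    rw [Finset.sum_multiset_map_count]
    rw [Finset.sum_subset hU]
    · refine Finset.sum_congr rfl fun α _ => ?_
      rw [nsmul_eq_mul]
    · intro x _ hx
      rw [Multiset.mem_toFinset, ← Multiset.count_eq_zero] at hx
      rw [hx, zero_smul]
  have hz : ∀ α ∈ F, ((S.count α : ℂ) - T.count α) = 0 := by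
    refine linearIndependent_iff'.1 hli F (fun α => (S.count α : ℂ) - T.count α) ?_
    funext n
    have hn := h (Multiplicative.toAdd n)
    rw [hexp S Finset.subset_union_left, hexp T Finset.subset_union_right, ← sub_eq_zero,
      ← Finset.sum_sub_distrib] at hn
    rw [Finset.sum_apply, Pi.zero_apply, ← hn]
    refine Finset.sum_congr rfl fun α _ => ?_
    simp only [Pi.smul_apply, smul_eq_mul, chi, powersHom_apply]
    ring
  ext α
  by_cases hα : α ∈ F
  · have := hz α hα
    rw [sub_eq_zero] at this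
    exact_mod_cast this
  · rw [hF, Finset.mem_union, not_or, Multiset.mem_toFinset, Multiset.mem_toFinset] at hα
    rw [Multiset.count_eq_zero.2 hα.1, Multiset.count_eq_zero.2 hα.2]

/-- separation of a pair of multisets by a predicate. -/
theorem split_eq {S₁ S₂ T₁ T₂ : Multiset ℂ} (P : ℂ → Prop)
    (h : S₁ + T₂ = S₂ + T₁) (hS₁ : ∀ x ∈ S₁, P x) (hS₂ : ∀ x ∈ S₂, P x)
    (hT₁ : ∀ x ∈ T₁, ¬ P x) (hT₂ : ∀ x ∈ T₂, ¬ P x) : S₁ = S₂ ∧ T₁ = T₂ := by
  classical
  have h1 := congrArg (Multiset.filter P) h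
  rw [Multiset.filter_add, Multiset.filter_add, Multiset.filter_eq_self.2 hS₁,
    Multiset.filter_eq_self.2 hS₂, Multiset.filter_eq_nil.2 hT₁, Multiset.filter_eq_nil.2 hT₂,
    add_zero, add_zero] at h1
  refine ⟨h1, ?_⟩
  rw [h1] at h
  exact (add_left_cancel h).symm

end Pool.Agent.Q303.CM
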