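import Pool.Agent.Q303.CM.Mult
import Pool.Agent.Q303.CM.PSum

/-!
Frobenius characters on a rigid symmetric abelian category.
-/

set_option linter.style.haveILetI false
set_option linter.unusedSectionVars false

open CategoryTheory CategoryTheory.Limits MonoidalCategory ExactPairing BraidedCategory

universe v u

namespace Pool.Agent.Q303.CM

/-- The known structure of a category of Chow motives over the field with `q`
elements: `End 𝟙 = ℚ`, the Frobenius endomorphism (natural, compatible with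
tensor products), the Lefschetz trace formula for its powers, with the multisets
of its eigenvalues on the even and odd cohomology, and the weights (Deligne). -/
structure FrobeniusStructure (q : ℝ) (C : Type u) [Category.{v} C] [Preadditive C] [Linear ℚ C]
    [MonoidalCategory C] [SymmetricCategory C] [RightRigidCategory C] where
  end_unit : ∀ f : 𝟙_ C ⟶ 𝟙_ C, ∃ r : ℚ, f = r • 𝟙 (𝟙_ C)
  unit_ne : 𝟙 (𝟙_ C) ≠ 0
  Fr : ∀ M : C, End M
  Fr_natural : ∀ {M N : C} (f : M ⟶ N), Fr M ≫ f = f ≫ Fr N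
  Fr_unit : Fr (𝟙_ C) = 𝟙 (𝟙_ C)
  Fr_tensor : ∀ M N : C, Fr (M ⊗ N) = Fr M ⊗ₘ Fr N
  Ev : C → Multiset ℂ
  Od : C → Multiset ℂ
  lefschetz : ∀ (M : C) (n : ℕ), ∃ r : ℚ, catTrace (Fr M ^ n : End M) = r • 𝟙 (𝟙_ C) ∧
    (r : ℂ) = ((Ev M).map (fun α => α ^ n)).sum - ((Od M).map (fun α => α ^ n)).sum
  weight_even : ∀ M, ∀ α ∈ Ev M, ∃ w : ℤ, ‖α‖ ^ 2 = q ^ (2 * w)
  weight_odd : ∀ M, ∀ α ∈ Od M, ∃ w : ℤ, ‖α‖ ^ 2 = q ^ (2 * w + 1)

variable {C : Type u} [Category.{v} C] [Abelian C] [Linear ℚ C] [MonoidalCategory C]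
  [MonoidalPreadditive C] [MonoidalLinear ℚ C] [SymmetricCategory C] [RightRigidCategory C]
  {q : ℝ}

namespace FrobeniusStructure

section NoAb

variable {C : Type u} [Category.{v} C] [Preadditive C] [Linear ℚ C] [MonoidalCategory C]
  [SymmetricCategory C] [RightRigidCategory C] {q : ℝ}

lemma smul_inj (D : FrobeniusStructure q C) {r s : ℚ}
    (h : r • 𝟙 (𝟙_ C) = s • 𝟙 (𝟙_ C)) : r = s := by
  by_contra hne
  have h1 : (r - s) • 𝟙 (𝟙_ C) = 0 := by rw [sub_smul, h, sub_self]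
  exact D.unit_ne ((smul_eq_zero.1 h1).resolve_left (sub_ne_zero.2 hne))

/-- the trace as a rational number. -/
lemma exists_tr (D : FrobeniusStructure q C) {M : C} (f : M ⟶ M) :
    ∃ r : ℚ, catTrace f = r • 𝟙 (𝟙_ C) := D.end_unit _

lemma end_unit' (D : FrobeniusStructure q C) (e : 𝟙_ C ⟶ 𝟙_ C) : e = 0 ∨ IsIso e := by
  obtain ⟨r, hr⟩ := D.end_unit e
  by_cases h : r = 0
  · left; rw [hr, h, zero_smul]
  · right
    refine ⟨r⁻¹ • 𝟙 (𝟙_ C), ?_, ?_⟩
    · rw [hr, Linear.smul_comp, Linear.comp_smul, smul_smul, mul_inv_cancel₀ h, one_smul,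
        Category.comp_id]
    · rw [hr, Linear.smul_comp, Linear.comp_smul, smul_smul, inv_mul_cancel₀ h, one_smul,
        Category.comp_id]

lemma pow_succ_comp (D : FrobeniusStructure q C) (M : C) (n : ℕ) :
    (D.Fr M ^ (n + 1) : End M) = (D.Fr M : M ⟶ M) ≫ (D.Fr M ^ n : End M) := by
  rw [pow_succ]; rfl

lemma pow_natural (D : FrobeniusStructure q C) {M N : C} (f : M ⟶ N) (n : ℕ) :
    (D.Fr M ^ n : End M) ≫ f = f ≫ (D.Fr N ^ n : End N) := by
  induction n with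
  | zero =>
    rw [pow_zero, pow_zero]
    change 𝟙 M ≫ f = f ≫ 𝟙 N
    rw [Category.id_comp, Category.comp_id]
  | succ n ih =>
    rw [pow_succ_comp, pow_succ_comp, Category.assoc, ih, ← Category.assoc, D.Fr_natural,
      Category.assoc]

lemma pow_tensor (D : FrobeniusStructure q C) (M N : C) (n : ℕ) :
    (D.Fr (M ⊗ N) ^ n : End (M ⊗ N)) = (D.Fr M ^ n : End M) ⊗ₘ (D.Fr N ^ n : End N) := by
  induction n with
  | zero =>
    rw [pow_zero, pow_zero, pow_zero]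
    change 𝟙 (M ⊗ N) = 𝟙 M ⊗ₘ 𝟙 N
    simp
  | succ n ih =>
    rw [pow_succ_comp, pow_succ_comp, pow_succ_comp, ih, D.Fr_tensor, tensorHom_comp_tensorHom]

lemma pow_unit (D : FrobeniusStructure q C) (n : ℕ) :
    (D.Fr (𝟙_ C) ^ n : End (𝟙_ C)) = 𝟙 (𝟙_ C) := by
  have h : D.Fr (𝟙_ C) = (1 : End (𝟙_ C)) := D.Fr_unit
  rw [h, one_pow]; rfl

lemma catTrace_eq_trp' {M : C} (f : M ⟶ M) : catTrace f = trp M Mᘁ f := rfl

lemma catTrace_unit : catTrace (𝟙 (𝟙_ C)) = 𝟙 (𝟙_ C) := by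
  rw [catTrace_eq_trp', trp_eq (𝟙_ C) _ (𝟙_ C) _ exactPairingUnit]
  have h1 : (η_ (𝟙_ C) (𝟙_ C)) = (ρ_ (𝟙_ C)).inv := rfl
  have h2 : (ε_ (𝟙_ C) (𝟙_ C)) = (ρ_ (𝟙_ C)).hom := rfl
  unfold trp
  rw [h1, h2, id_whiskerRight, Category.id_comp, braiding_tensorUnit_right]
  monoidal

end NoAb

lemma parity (D : FrobeniusStructure q C) (hq : 1 < q) {M : C} {α : ℂ}
    (h : α ∈ D.Od M) : ¬ ∃ w : ℤ, ‖α‖ ^ 2 = q ^ (2 * w) := by
  rintro ⟨w, hw⟩
  obtain ⟨w', hw'⟩ := D.weight_odd M α h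
  rw [hw] at hw'
  have := zpow_right_injective₀ (by linarith) hq.ne' hw'
  omega

lemma lef (D : FrobeniusStructure q C) (M : C) (n : ℕ) {r : ℚ}
    (h : catTrace (D.Fr M ^ n : End M) = r • 𝟙 (𝟙_ C)) :
    (r : ℂ) = psum (D.Ev M) n - psum (D.Od M) n := by
  obtain ⟨s, hs, hs'⟩ := D.lefschetz M n
  rw [D.smul_inj (h.symm.trans hs)]
  exact hs'

/-- characters of the unit. -/
theorem char_unit (D : FrobeniusStructure q C) (hq : 1 < q) :
    D.Ev (𝟙_ C) = {1} ∧ D.Od (𝟙_ C) = 0 := by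
  have h1 : D.Ev (𝟙_ C) + 0 = {1} + D.Od (𝟙_ C) := by
    refine eq_of_psum fun n => ?_
    have h := D.lef (𝟙_ C) n (r := 1) (by
      rw [one_smul, D.pow_unit, catTrace_unit])
    rw [psum_add, psum_add, psum_zero, psum_singleton, one_pow]
    push_cast at h
    rw [h]; ring
  have h2 := split_eq (fun α => ∃ w : ℤ, ‖α‖ ^ 2 = q ^ (2 * w)) h1 (D.weight_even _) (by
    intro x hx
    rw [Multiset.mem_singleton] at hx
    exact ⟨0, by rw [hx]; simp⟩) (fun x hx => D.parity hq hx) (by simp)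
  exact ⟨h2.1, h2.2⟩

/-- additivity of characters. -/
theorem char_ses (D : FrobeniusStructure q C) (hq : 1 < q) {A B Q : C} {i : A ⟶ B} {p : B ⟶ Q}
    (h : SES i p) : D.Ev B = D.Ev A + D.Ev Q ∧ D.Od B = D.Od A + D.Od Q := by
  have h1 : D.Ev B + (D.Od A + D.Od Q) = (D.Ev A + D.Ev Q) + D.Od B := by
    refine eq_of_psum fun n => ?_
    obtain ⟨a, ha⟩ := D.exists_tr (D.Fr A ^ n : End A)
    obtain ⟨c, hc⟩ := D.exists_tr (D.Fr Q ^ n : End Q)
    have hb : catTrace (D.Fr B ^ n : End B) = (a + c) • 𝟙 (𝟙_ C) := by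
      rw [add_smul, ← ha, ← hc]
      exact catTrace_ses h _ _ _ (D.pow_natural i n) (D.pow_natural p n)
    have e1 := D.lef A n ha
    have e2 := D.lef B n hb
    have e3 := D.lef Q n hc
    rw [psum_add, psum_add, psum_add, psum_add]
    push_cast at e2
    rw [e1, e3] at e2
    linear_combination -e2
  have h2 := split_eq (fun α => ∃ w : ℤ, ‖α‖ ^ 2 = q ^ (2 * w)) h1 (D.weight_even _) (by
      intro x hx
      rcases Multiset.mem_add.1 hx with hx | hx
      · exact D.weight_even _ x hx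
      · exact D.weight_even _ x hx) (fun x hx => D.parity hq hx) (by
      intro x hx
      rcases Multiset.mem_add.1 hx with hx | hx
      · exact D.parity hq hx
      · exact D.parity hq hx)
  exact h2

/-- characters of a zero object. -/
theorem char_zero (D : FrobeniusStructure q C) (hq : 1 < q) {Z : C} (h : IsZero Z) :
    D.Ev Z = 0 ∧ D.Od Z = 0 := by
  have hs : SES (𝟙 Z) (0 : Z ⟶ Z) := by
    refine ⟨by simp, ShortComplex.ShortExact.mk' ?_ inferInstance ?_⟩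
    · exact ShortComplex.exact_of_isZero_X₂ _ h
    · exact ⟨fun a b _ => h.eq_of_src a b⟩
  have h1 := D.char_ses hq hs
  constructor
  · exact left_eq_add.1 h1.1
  · exact left_eq_add.1 h1.2

/-- a nonzero map from the unit splits off the eigenvalue `1`. -/
theorem char_cokernel (D : FrobeniusStructure q C) (hq : 1 < q) {B : C} (z : 𝟙_ C ⟶ B)
    (hz : z ≠ 0) : D.Ev B = {1} + D.Ev (cokernel z) ∧ D.Od B = D.Od (cokernel z) := by
  haveI := mono_of_unit D.end_unit' z hz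
  have h := D.char_ses hq (SES.of_mono z)
  rw [(D.char_unit hq).1, (D.char_unit hq).2, zero_add] at h
  exact h

/-- **No phantoms.** -/
theorem isZero_of_char (D : FrobeniusStructure q C) (hq : 1 < q) {M : C}
    (h : D.Ev M = 0 ∧ D.Od M = 0) : IsZero M := by
  by_contra hne
  have hη : η_ M Mᘁ ≠ 0 := by
    intro h0
    exact hne ((IsZero.iff_id_eq_zero _).2 (id_eq_zero_of_coev h0))
  have h1 := D.char_cokernel hq (η_ M Mᘁ) hη
  have h2 : D.Ev (M ⊗ Mᘁ) + 0 = 0 + D.Od (M ⊗ Mᘁ) := by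
    refine eq_of_psum fun n => ?_
    obtain ⟨a, ha⟩ := D.exists_tr (D.Fr M ^ n : End M)
    obtain ⟨b, hb⟩ := D.exists_tr (D.Fr (Mᘁ) ^ n : End (Mᘁ))
    have e1 := D.lef M n ha
    rw [h.1, h.2, psum_zero, sub_self] at e1
    have e2 : catTrace (D.Fr (M ⊗ Mᘁ) ^ n : End (M ⊗ Mᘁ)) = (a * b) • 𝟙 (𝟙_ C) := by
      rw [D.pow_tensor]
      exact catTrace_tensor _ _ _ _ ha hb
    have e3 := D.lef _ n e2
    push_cast at e3
    rw [e1, zero_mul] at e3
    rw [psum_add, psum_add, psum_zero]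
    linear_combination -e3
  have h3 := split_eq (fun α => ∃ w : ℤ, ‖α‖ ^ 2 = q ^ (2 * w)) h2 (D.weight_even _) (by simp)
    (fun x hx => D.parity hq hx) (by simp)
  have h4 := congrArg Multiset.card h1.1
  rw [h3.1] at h4
  simp at h4

end FrobeniusStructure

end Pool.Agent.Q303.CM
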