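import Pool.Agent.Q303.CM.Char

/-!
The dimension of `Hom(𝟙, B)` and splitting objects.
-/

set_option linter.style.haveILetI false
set_option linter.unusedSectionVars false

open CategoryTheory CategoryTheory.Limits MonoidalCategory ExactPairing BraidedCategory

universe v u

namespace Pool.Agent.Q303.CM

variable {C : Type u} [Category.{v} C] [Abelian C] [Linear ℚ C] [MonoidalCategory C]
  [MonoidalPreadditive C] [MonoidalLinear ℚ C] [SymmetricCategory C] [RightRigidCategory C]
  {q : ℝ}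

namespace FrobeniusStructure

/-- composition with the projection to the cokernel of `z`. -/
noncomputable def toCoker {B : C} (z : 𝟙_ C ⟶ B) :
    (𝟙_ C ⟶ B) →ₗ[ℚ] (𝟙_ C ⟶ cokernel z) :=
  Linear.rightComp ℚ (𝟙_ C) (cokernel.π z)

lemma ker_toCoker (D : FrobeniusStructure q C) {B : C} (z : 𝟙_ C ⟶ B) (hz : z ≠ 0) :
    LinearMap.ker (toCoker z) ≤ Submodule.span ℚ {z} := by
  haveI := mono_of_unit D.end_unit' z hz
  intro x hx
  have hx' : x ≫ cokernel.π z = 0 := hx
  obtain ⟨e, he⟩ := (SES.of_mono z).lift x hx'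
  obtain ⟨r, hr⟩ := D.end_unit e
  rw [← he, hr, Linear.smul_comp, Category.id_comp]
  exact Submodule.smul_mem _ _ (Submodule.mem_span_singleton_self z)

theorem rank_le (D : FrobeniusStructure q C) (hq : 1 < q) (B : C) :
    Module.rank ℚ (𝟙_ C ⟶ B) ≤ ((D.Ev B).count 1 : ℕ) := by
  obtain ⟨n, hn⟩ : ∃ n, (D.Ev B).count 1 = n := ⟨_, rfl⟩
  rw [hn]
  induction n generalizing B with
  | zero =>
    have : Subsingleton (𝟙_ C ⟶ B) := by
      refine ⟨fun a b => ?_⟩
      by_contra hne
      have h := (D.char_cokernel hq (a - b) (sub_ne_zero.2 hne)).1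
      rw [h] at hn
      simp at hn
    rw [rank_subsingleton']
    simp
  | succ n ih =>
    by_cases hz : ∃ z : 𝟙_ C ⟶ B, z ≠ 0
    · obtain ⟨z, hz⟩ := hz
      have h := (D.char_cokernel hq z hz).1
      have hc : (D.Ev (cokernel z)).count 1 = n := by
        rw [h, Multiset.count_add, Multiset.count_singleton_self] at hn
        omega
      have h1 := ih (cokernel z) hc
      have h2 : Module.rank ℚ (LinearMap.ker (toCoker z)) ≤ 1 := by
        refine (Submodule.rank_mono (D.ker_toCoker z hz)).trans ?_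
        refine (rank_span_le _).trans ?_
        simp
      have h3 := LinearMap.rank_range_add_rank_ker (toCoker z)
      have h4 : Module.rank ℚ (LinearMap.range (toCoker z)) ≤ (n : Cardinal) :=
        (Submodule.rank_le _).trans h1
      rw [← h3]
      push_cast
      exact add_le_add h4 h2
    · push_neg at hz
      have : Subsingleton (𝟙_ C ⟶ B) := ⟨fun a b => by rw [hz a, hz b]⟩
      rw [rank_subsingleton']
      simp

theorem finite_hom (D : FrobeniusStructure q C) (hq : 1 < q) (B : C) :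
    Module.Finite ℚ (𝟙_ C ⟶ B) := by
  rw [← Module.rank_lt_aleph0_iff]
  exact (D.rank_le hq B).trans_lt (Cardinal.nat_lt_aleph0 _)

theorem finrank_le (D : FrobeniusStructure q C) (hq : 1 < q) (B : C) :
    Module.finrank ℚ (𝟙_ C ⟶ B) ≤ (D.Ev B).count 1 := by
  exact Module.finrank_le_of_rank_le (D.rank_le hq B)

/-- the endomorphisms factoring through sums of copies of the unit. -/
def unitSpan (B : C) : Submodule ℚ (B ⟶ B) :=
  Submodule.span ℚ {f : B ⟶ B | ∃ (w : B ⟶ 𝟙_ C) (z : 𝟙_ C ⟶ B), f = w ≫ z}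

lemma unitSpan_lift (D : FrobeniusStructure q C) {B Q : C} (p : B ⟶ Q)
    (hs : ∀ z : 𝟙_ C ⟶ Q, ∃ z' : 𝟙_ C ⟶ B, z' ≫ p = z) (f : Q ⟶ Q) (hf : f ∈ unitSpan Q) :
    ∃ g ∈ unitSpan B, g ≫ p = p ≫ f := by
  refine Submodule.span_induction ?_ ?_ ?_ ?_ hf
  · rintro _ ⟨w, z, rfl⟩
    obtain ⟨z', hz'⟩ := hs z
    refine ⟨(p ≫ w) ≫ z', Submodule.subset_span ⟨p ≫ w, z', rfl⟩, ?_⟩
    rw [Category.assoc, hz', Category.assoc]
  · exact ⟨0, Submodule.zero_mem _, by simp⟩
  · rintro a b _ _ ⟨g, hg, hg'⟩ ⟨k, hk, hk'⟩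
    exact ⟨g + k, Submodule.add_mem _ hg hk, by rw [Preadditive.add_comp, hg', hk',
      Preadditive.comp_add]⟩
  · rintro r a _ ⟨g, hg, hg'⟩
    exact ⟨r • g, Submodule.smul_mem _ _ hg, by rw [Linear.smul_comp, hg', Linear.comp_smul]⟩

theorem id_mem_unitSpan (D : FrobeniusStructure q C) (hq : 1 < q) (B : C)
    (h : (D.Ev B).card + (D.Od B).card ≤ Module.finrank ℚ (𝟙_ C ⟶ B)) :
    𝟙 B ∈ unitSpan B := by
  obtain ⟨n, hn⟩ : ∃ n, (D.Ev B).card + (D.Od B).card = n := ⟨_, rfl⟩
  induction n generalizing B with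
  | zero =>
    have h1 : (D.Ev B) = 0 := Multiset.card_eq_zero.1 (by omega)
    have h2 : (D.Od B) = 0 := Multiset.card_eq_zero.1 (by omega)
    have h3 := D.isZero_of_char hq ⟨h1, h2⟩
    rw [(IsZero.iff_id_eq_zero _).1 h3]
    exact Submodule.zero_mem _
  | succ n ih =>
    haveI := D.finite_hom hq B
    haveI : Nontrivial (𝟙_ C ⟶ B) := by
      by_contra hc
      rw [not_nontrivial_iff_subsingleton] at hc
      have := Module.finrank_zero_of_subsingleton (R := ℚ) (M := (𝟙_ C ⟶ B))
      omega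
    obtain ⟨z, hz⟩ := exists_ne (0 : 𝟙_ C ⟶ B)
    haveI := mono_of_unit D.end_unit' z hz
    obtain ⟨hE, hO⟩ := D.char_cokernel hq z hz
    haveI := D.finite_hom hq (cokernel z)
    have hcard : (D.Ev (cokernel z)).card + (D.Od (cokernel z)).card = n := by
      rw [hE, hO, Multiset.card_add, Multiset.card_singleton] at hn
      omega
    have hk : Module.finrank ℚ (LinearMap.ker (toCoker z)) ≤ 1 := by
      refine (Submodule.finrank_mono (D.ker_toCoker z hz)).trans ?_
      refine (finrank_span_le_card _).trans ?_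
      simp
    have hr := LinearMap.finrank_range_add_finrank_ker (toCoker z)
    have hle := D.finrank_le hq (cokernel z)
    have hcount : (D.Ev (cokernel z)).count 1 ≤ (D.Ev (cokernel z)).card :=
      Multiset.count_le_card _ _
    have hrange : LinearMap.range (toCoker z) = ⊤ := by
      apply Submodule.eq_top_of_finrank_eq
      have := Submodule.finrank_le (LinearMap.range (toCoker z))
      omega
    have hrle := Submodule.finrank_le (LinearMap.range (toCoker z))
    have hQ := ih (cokernel z) (by omega) hcard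
    have hs : ∀ y : 𝟙_ C ⟶ cokernel z, ∃ y' : 𝟙_ C ⟶ B, y' ≫ cokernel.π z = y := by
      intro y
      have : y ∈ LinearMap.range (toCoker z) := by rw [hrange]; trivial
      obtain ⟨y', hy'⟩ := this
      exact ⟨y', hy'⟩
    obtain ⟨g, hg, hg'⟩ := D.unitSpan_lift (cokernel.π z) hs _ hQ
    have h0 : (𝟙 B - g) ≫ cokernel.π z = 0 := by
      rw [Preadditive.sub_comp, hg', Category.id_comp, Category.comp_id, sub_self]
    obtain ⟨w, hw⟩ := (SES.of_mono z).lift _ h0
    have : 𝟙 B = g + w ≫ z := by rw [hw]; abel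
    rw [this]
    exact Submodule.add_mem _ hg (Submodule.subset_span ⟨w, z, rfl⟩)

lemma zero_of_unitSpan {B : C} (h : 𝟙 B ∈ unitSpan B) (z : 𝟙_ C ⟶ B)
    (hz : ∀ w : B ⟶ 𝟙_ C, z ≫ w = 0) : z = 0 := by
  have : ∀ f ∈ unitSpan B, z ≫ f = 0 := by
    intro f hf
    refine Submodule.span_induction ?_ ?_ ?_ ?_ hf
    · rintro _ ⟨w, y, rfl⟩
      rw [← Category.assoc, hz, zero_comp]
    · simp
    · rintro a b _ _ ha hb
      rw [Preadditive.comp_add, ha, hb, add_zero]
    · rintro r a _ ha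
      rw [Linear.comp_smul, ha, smul_zero]
  rw [← this _ h, Category.comp_id]

end FrobeniusStructure

end Pool.Agent.Q303.CM
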