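import Pool.Agent.Q303.CM.Lef

/-!
Numerical equivalence on an object and on its dual.
-/

set_option linter.style.haveILetI false
set_option linter.unusedSectionVars false

open CategoryTheory CategoryTheory.Limits MonoidalCategory ExactPairing BraidedCategory

universe v u w

namespace Pool.Agent.Q303.CM

variable {C : Type u} [Category.{v} C] [Abelian C] [Linear ℚ C] [MonoidalCategory C]
  [MonoidalPreadditive C] [MonoidalLinear ℚ C] [SymmetricCategory C] [RightRigidCategory C]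
  {q : ℝ}

lemma qm_surj {A : C} (z : 𝟙_ C ⟶ Aᘁ) : ∃ j : A ⟶ 𝟙_ C, qm j = z := by
  refine ⟨(λ_ A).inv ≫ z ▷ A ≫ ε_ A Aᘁ, ?_⟩
  have h := tensorRightHomEquiv_whiskerRight_comp_evaluation (X := A) (Y := 𝟙_ C) z
  have h1 : ∀ g : 𝟙_ C ⊗ A ⟶ 𝟙_ C, qm ((λ_ A).inv ≫ g)
      = tensorRightHomEquiv (𝟙_ C) A Aᘁ (𝟙_ C) g ≫ (λ_ (Aᘁ)).hom := by
    intro g
    simp only [qm, tensorRightHomEquiv, Equiv.coe_fn_mk]
    monoidal
  rw [h1, h, Category.assoc, Iso.inv_hom_id, Category.comp_id]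

lemma qm_injective {A : C} {j j' : A ⟶ 𝟙_ C} (h : qm j = qm j') : j = j' := by
  have h1 := qm_eval j
  rw [h, qm_eval] at h1
  exact ((cancel_epi (λ_ A).hom).1 h1).symm

/-- `qm` as a linear equivalence. -/
noncomputable def qmEquiv (A : C) : (A ⟶ 𝟙_ C) ≃ₗ[ℚ] (𝟙_ C ⟶ Aᘁ) :=
  LinearEquiv.ofBijective
    { toFun := qm
      map_add' := by intro x y; simp [qm]
      map_smul' := by
        intro r x
        simp only [qm, RingHom.id_apply, MonoidalLinear.smul_whiskerRight, Linear.smul_comp,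
          Linear.comp_smul] }
    ⟨fun _ _ h => qm_injective h, fun z => qm_surj z⟩

/-- the evaluation `Aᘁ ⟶ 𝟙` given by a cycle `x : 𝟙 ⟶ A`. -/
noncomputable def evx {A : C} (x : 𝟙_ C ⟶ A) : Aᘁ ⟶ 𝟙_ C :=
  (ρ_ (Aᘁ)).inv ≫ (Aᘁ ◁ x) ≫ ε_ A Aᘁ

lemma qm_evx {A : C} (j : A ⟶ 𝟙_ C) (x : 𝟙_ C ⟶ A) : qm j ≫ evx x = x ≫ j := by
  have h1 : qm j ≫ evx x = (ρ_ (𝟙_ C)).inv ≫ (qm j ▷ 𝟙_ C ≫ Aᘁ ◁ x) ≫ ε_ A Aᘁ := by
    unfold evx
    simp
  have h2 : (𝟙_ C ◁ x ≫ qm j ▷ A) ≫ ε_ A Aᘁ = 𝟙_ C ◁ x ≫ (λ_ A).hom ≫ j := by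
    rw [Category.assoc, qm_eval]
  rw [h1, ← whisker_exchange, h2]
  monoidal

namespace FrobeniusStructure

/-- the endomorphisms of the unit. -/
noncomputable def unitEquiv (D : FrobeniusStructure q C) : ℚ ≃ₗ[ℚ] (𝟙_ C ⟶ 𝟙_ C) :=
  LinearEquiv.ofBijective (LinearMap.toSpanSingleton ℚ _ (𝟙 (𝟙_ C)))
    ⟨fun r s h => D.smul_inj (by simpa using h), fun f => by
      obtain ⟨r, hr⟩ := D.end_unit f
      exact ⟨r, by simpa using hr.symm⟩⟩

/-- the intersection pairing as a bilinear form. -/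
noncomputable def pairing (D : FrobeniusStructure q C) (A : C) :
    (𝟙_ C ⟶ A) →ₗ[ℚ] Module.Dual ℚ (A ⟶ 𝟙_ C) :=
  LinearMap.mk₂ ℚ (fun x j => D.unitEquiv.symm (x ≫ j))
    (by intro x y j; simp) (by intro r x j; simp) (by intro x j k; simp)
    (by intro r x j; simp)

lemma pairing_apply (D : FrobeniusStructure q C) (A : C) (x : 𝟙_ C ⟶ A) (j : A ⟶ 𝟙_ C) :
    D.pairing A x j = D.unitEquiv.symm (x ≫ j) := rfl

theorem dual_numTriv (D : FrobeniusStructure q C) (hq : 1 < q) {A : C}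
    (hr : Module.finrank ℚ (𝟙_ C ⟶ A) = Module.finrank ℚ (𝟙_ C ⟶ Aᘁ))
    (hA : ∀ z : 𝟙_ C ⟶ A, (∀ w : A ⟶ 𝟙_ C, z ≫ w = 0) → z = 0)
    (z : 𝟙_ C ⟶ Aᘁ) (hz : ∀ w : Aᘁ ⟶ 𝟙_ C, z ≫ w = 0) : z = 0 := by
  haveI := D.finite_hom hq A
  haveI := D.finite_hom hq (Aᘁ)
  haveI : Module.Finite ℚ (A ⟶ 𝟙_ C) := Module.Finite.equiv (qmEquiv A).symm
  have hf : Module.finrank ℚ (A ⟶ 𝟙_ C) = Module.finrank ℚ (𝟙_ C ⟶ Aᘁ) :=
    (qmEquiv A).finrank_eq
  have hinj : Function.Injective (D.pairing A) := by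
    rw [injective_iff_map_eq_zero]
    intro x hx
    refine hA x fun j => ?_
    have := congrArg (fun φ => φ j) hx
    simp only [pairing_apply, LinearMap.zero_apply] at this
    exact (LinearEquiv.map_eq_zero_iff _).1 this
  have hsurj : Function.Surjective (D.pairing A) := by
    rw [← LinearMap.injective_iff_surjective_of_finrank_eq_finrank]
    · exact hinj
    · rw [Subspace.dual_finrank_eq, hf, hr]
  obtain ⟨j, hj⟩ := qm_surj z
  have hj0 : j = 0 := by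
    rw [← Module.forall_dual_apply_eq_zero_iff ℚ]
    intro φ
    obtain ⟨x, rfl⟩ := hsurj φ
    rw [pairing_apply, ← qm_evx, hj, hz, map_zero]
  rw [← hj, hj0]
  simp [qm]

/-- **Strong Lefschetz and numerical equivalence.** -/
theorem Realisation.dual_numTriv {D : FrobeniusStructure q C} (W : Realisation.{v, u, w} D)
    (hq : 1 < q) {A : C} (f : A ⟶ Aᘁ)
    (hf : Set.BijOn (W.H.map f).hom (W.gen A) (W.gen (Aᘁ)))
    (hA : ∀ z : 𝟙_ C ⟶ A, (∀ w : A ⟶ 𝟙_ C, z ≫ w = 0) → z = 0)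
    (z : 𝟙_ C ⟶ Aᘁ) (hz : ∀ w : Aᘁ ⟶ 𝟙_ C, z ≫ w = 0) : z = 0 := by
  refine D.dual_numTriv hq ?_ hA z hz
  exact (LinearEquiv.ofBijective (Linear.rightComp ℚ (𝟙_ C) f)
    (W.bijective_comp hq f hf)).finrank_eq

end FrobeniusStructure

end Pool.Agent.Q303.CM
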