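import Pool.Agent.Q303.CM.Sep

/-!
Finite-dimensionality of the groups of cycles, and numerical equivalence when the
numerical rank is the multiplicity of the eigenvalue `1`.
-/

set_option linter.style.haveILetI false
set_option linter.unusedSectionVars false

open CategoryTheory CategoryTheory.Limits MonoidalCategory ExactPairing BraidedCategory

universe v u

namespace Pool.Agent.Q303.CM

variable {C : Type u} [Category.{v} C] [Abelian C] [Linear ℚ C] [MonoidalCategory C]
  [MonoidalPreadditive C] [MonoidalLinear ℚ C] [SymmetricCategory C] [RightRigidCategory C]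
  {q : ℝ}

namespace FrobeniusStructure

/-- if the numerical rank is the multiplicity of `1`, numerically trivial cycles vanish. -/
theorem zero_of_tate (D : FrobeniusStructure q C) (hq : 1 < q) {M : C} {n : ℕ}
    (hn : (D.Ev M).count 1 = n) (z : Fin n → (𝟙_ C ⟶ M)) (w : Fin n → (M ⟶ 𝟙_ C))
    (hzw : ∀ i j, z i ≫ w j = if i = j then 𝟙 (𝟙_ C) else 0) (y : 𝟙_ C ⟶ M)
    (hy : ∀ t : M ⟶ 𝟙_ C, y ≫ t = 0) : y = 0 := by
  classical
  haveI := D.finite_hom hq M
  have hcomp : ∀ (c : Fin n → ℚ) (j : Fin n), (∑ i, c i • z i) ≫ w j = c j • 𝟙 (𝟙_ C) := by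
    intro c j
    rw [Preadditive.sum_comp]
    simp only [Linear.smul_comp, hzw, smul_ite, smul_zero, Finset.sum_ite_eq', Finset.mem_univ,
      if_true]
  have hli : LinearIndependent ℚ z := by
    rw [Fintype.linearIndependent_iff]
    intro c hc j
    have h1 := hcomp c j
    rw [hc, zero_comp] at h1
    exact D.smul_inj (by rw [← h1, zero_smul])
  have hcard : Fintype.card (Fin n) = Module.finrank ℚ (𝟙_ C ⟶ M) := by
    apply le_antisymm hli.fintype_card_le_finrank
    rw [Fintype.card_fin, ← hn]
    exact D.finrank_le hq M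
  have hspan : Submodule.span ℚ (Set.range z) = ⊤ :=
    hli.span_eq_top_of_card_eq_finrank' hcard
  have hmem : y ∈ Submodule.span ℚ (Set.range z) := by rw [hspan]; trivial
  obtain ⟨c, hc⟩ := (Submodule.mem_span_range_iff_exists_fun ℚ).1 hmem
  have hc0 : ∀ j, c j = 0 := by
    intro j
    have h1 := hcomp c j
    rw [hc, hy] at h1
    exact D.smul_inj (by rw [← h1, zero_smul])
  rw [← hc]
  exact Finset.sum_eq_zero fun i _ => by rw [hc0 i, zero_smul]

end FrobeniusStructure

end Pool.Agent.Q303.CM
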