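import Pool.Agent.Q303.CM.Dim

/-!
Lifting of cycles, and maps which are isomorphisms on the generalized eigenspace of the
eigenvalue `1` of Frobenius.
-/

set_option linter.style.haveILetI false
set_option linter.unusedSectionVars false

open CategoryTheory CategoryTheory.Limits MonoidalCategory ExactPairing BraidedCategory

universe v u w

namespace Pool.Agent.Q303.CM

variable {C : Type u} [Category.{v} C] [Abelian C] [Linear ℚ C] [MonoidalCategory C]
  [MonoidalPreadditive C] [MonoidalLinear ℚ C] [SymmetricCategory C] [RightRigidCategory C]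
  {q : ℝ}

namespace FrobeniusStructure

/-- Frobenius as a morphism. -/
def fr (D : FrobeniusStructure q C) (M : C) : M ⟶ M := D.Fr M

lemma fr_natural (D : FrobeniusStructure q C) {M N : C} (f : M ⟶ N) :
    D.fr M ≫ f = f ≫ D.fr N := D.Fr_natural f

lemma psum_replicate (n k : ℕ) : psum (Multiset.replicate k 1) n = k := by
  simp [psum]

/-- characters of an object on which Frobenius is the identity. -/
theorem char_of_Fr_eq_one (D : FrobeniusStructure q C) (hq : 1 < q) {N : C}
    (h : D.Fr N = (1 : End N)) :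
    D.Ev N = Multiset.replicate (D.Ev N).card 1 ∧ D.Od N = 0 := by
  obtain ⟨c, hc⟩ := D.exists_tr (𝟙 N)
  have hpow : ∀ n : ℕ, (D.Fr N ^ n : End N) = 𝟙 N := by
    intro n; rw [h, one_pow]; rfl
  have hl : ∀ n, (c : ℂ) = psum (D.Ev N) n - psum (D.Od N) n := by
    intro n
    exact D.lef N n (by rw [hpow]; exact hc)
  have h0 := hl 0
  rw [psum_card, psum_card] at h0
  have hev : ∀ k : ℕ, ∀ x ∈ Multiset.replicate k (1 : ℂ), ∃ w : ℤ, ‖x‖ ^ 2 = q ^ (2 * w) := by
    intro k x hx
    rw [Multiset.eq_of_mem_replicate hx]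
    exact ⟨0, by simp⟩
  rcases le_total (D.Od N).card (D.Ev N).card with hle | hle
  · set k := (D.Ev N).card - (D.Od N).card with hk
    have hck : (c : ℂ) = k := by rw [h0, hk, Nat.cast_sub hle]
    have h1 : D.Ev N + 0 = Multiset.replicate k 1 + D.Od N := by
      refine eq_of_psum fun n => ?_
      rw [psum_add, psum_add, psum_zero, psum_replicate]
      linear_combination hck - hl n
    have h2 := split_eq (fun α => ∃ w : ℤ, ‖α‖ ^ 2 = q ^ (2 * w)) h1 (D.weight_even _)
      (hev k) (fun x hx => D.parity hq hx) (by simp)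
    refine ⟨?_, h2.2⟩
    have h3 : (D.Ev N).card = k := by rw [h2.1, Multiset.card_replicate]
    rw [h3]; exact h2.1
  · set k := (D.Od N).card - (D.Ev N).card with hk
    have hck : (c : ℂ) = -(k : ℂ) := by rw [h0, hk, Nat.cast_sub hle]; ring
    have h1 : (D.Ev N + Multiset.replicate k 1) + 0 = 0 + D.Od N := by
      refine eq_of_psum fun n => ?_
      rw [psum_add, psum_add, psum_add, psum_zero, psum_replicate]
      linear_combination hck - hl n
    have h2 := split_eq (fun α => ∃ w : ℤ, ‖α‖ ^ 2 = q ^ (2 * w)) h1 (by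
      intro x hx
      rcases Multiset.mem_add.1 hx with hx | hx
      · exact D.weight_even _ x hx
      · exact hev k x hx) (by simp) (fun x hx => D.parity hq hx) (by simp)
    have h3 := (add_eq_zero.1 h2.1).1
    refine ⟨by rw [h3]; simp, h2.2⟩

/-- a subobject or quotient with trivial Frobenius vanishes if `1` is not an eigenvalue. -/
lemma isZero_of_Fr_eq_one (D : FrobeniusStructure q C) (hq : 1 < q) {N : C}
    (h : D.Fr N = (1 : End N)) (hc : (D.Ev N).count 1 = 0) : IsZero N := by
  obtain ⟨h1, h2⟩ := D.char_of_Fr_eq_one hq h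
  apply D.isZero_of_char hq
  refine ⟨?_, h2⟩
  rw [h1, Multiset.count_replicate_self] at hc
  exact Multiset.card_eq_zero.1 hc

/-- `Fr - 1` is invertible if `1` is not an eigenvalue. -/
theorem isIso_Fr_sub_one (D : FrobeniusStructure q C) (hq : 1 < q) {K : C}
    (hc : (D.Ev K).count 1 = 0) : IsIso (D.fr K - 𝟙 K) := by
  have hmono : Mono (D.fr K - 𝟙 K) := by
    set f := D.fr K - 𝟙 K with hf
    have h1 : D.Fr (kernel f) = (1 : End (kernel f)) := by
      apply (cancel_mono (kernel.ι f)).1
      change D.fr (kernel f) ≫ kernel.ι f = 𝟙 _ ≫ kernel.ι f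
      rw [D.fr_natural, Category.id_comp]
      have := kernel.condition f
      rw [hf, Preadditive.comp_sub, Category.comp_id, sub_eq_zero] at this
      exact this
    have h2 := (D.char_ses hq (SES.of_mono (kernel.ι f))).1
    have h3 : (D.Ev (kernel f)).count 1 = 0 := by
      rw [h2, Multiset.count_add] at hc
      omega
    have h4 := D.isZero_of_Fr_eq_one hq h1 h3
    rw [Preadditive.mono_iff_cancel_zero]
    intro T t ht
    rw [← kernel.lift_ι f t ht, h4.eq_of_tgt (kernel.lift f t ht) 0, zero_comp]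
  have hepi : Epi (D.fr K - 𝟙 K) := by
    set f := D.fr K - 𝟙 K with hf
    have h1 : D.Fr (cokernel f) = (1 : End (cokernel f)) := by
      apply (cancel_epi (cokernel.π f)).1
      change cokernel.π f ≫ D.fr (cokernel f) = cokernel.π f ≫ 𝟙 _
      rw [← D.fr_natural, Category.comp_id]
      have := cokernel.condition f
      rw [hf, Preadditive.sub_comp, Category.id_comp, sub_eq_zero] at this
      exact this
    have h2 := (D.char_ses hq (SES.of_epi (cokernel.π f))).1
    have h3 : (D.Ev (cokernel f)).count 1 = 0 := by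
      rw [h2, Multiset.count_add] at hc
      omega
    have h4 := D.isZero_of_Fr_eq_one hq h1 h3
    rw [Preadditive.epi_iff_cancel_zero]
    intro T t ht
    rw [← cokernel.π_desc f t ht, h4.eq_of_src (cokernel.desc f t ht) 0, comp_zero]
  exact isIso_of_mono_of_epi _

/-- an extension of the unit by an object without eigenvalue `1` splits. -/
lemma exists_section (D : FrobeniusStructure q C) (hq : 1 < q) {K P : C} {κ : K ⟶ P}
    {s : P ⟶ 𝟙_ C} (h : SES κ s) (hc : (D.Ev K).count 1 = 0) :
    ∃ σ : 𝟙_ C ⟶ P, σ ≫ s = 𝟙 (𝟙_ C) := by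
  haveI := D.isIso_Fr_sub_one hq hc
  haveI := h.mono
  haveI := h.epi
  have h1 : (D.fr P - 𝟙 P) ≫ s = 0 := by
    rw [Preadditive.sub_comp, D.fr_natural, Category.id_comp]
    have : D.fr (𝟙_ C) = 𝟙 (𝟙_ C) := D.Fr_unit
    rw [this, Category.comp_id, sub_self]
  obtain ⟨r, hr⟩ := h.lift _ h1
  have h2 : κ ≫ r = D.fr K - 𝟙 K := by
    apply (cancel_mono κ).1
    rw [Category.assoc, hr, Preadditive.comp_sub, ← D.fr_natural, Category.comp_id,
      Preadditive.sub_comp, Category.id_comp]
  have h3 : κ ≫ (𝟙 P - r ≫ inv (D.fr K - 𝟙 K) ≫ κ) = 0 := by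
    rw [Preadditive.comp_sub, Category.comp_id, ← Category.assoc κ r, h2, IsIso.hom_inv_id_assoc,
      sub_self]
  obtain ⟨σ, hσ⟩ := h.desc _ h3
  refine ⟨σ, ?_⟩
  apply (cancel_epi s).1
  rw [← Category.assoc, hσ, Preadditive.sub_comp, Category.id_comp, Category.assoc,
    Category.assoc, h.zero, comp_zero, comp_zero, sub_zero, Category.comp_id]

/-- **Lifting of cycles.** -/
theorem exists_lift (D : FrobeniusStructure q C) (hq : 1 < q) {K A I : C} {i : K ⟶ A}
    {p : A ⟶ I} (h : SES i p) (hc : (D.Ev K).count 1 = 0) (y : 𝟙_ C ⟶ I) :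
    ∃ x : 𝟙_ C ⟶ A, x ≫ p = y := by
  haveI := h.mono
  haveI := h.epi
  set s := pullback.snd p y with hs
  set κ := kernel.ι s with hκ
  have hsq : pullback.fst p y ≫ p = s ≫ y := pullback.condition
  have h0 : (κ ≫ pullback.fst p y) ≫ p = 0 := by
    rw [Category.assoc, hsq, ← Category.assoc, kernel.condition, zero_comp]
  obtain ⟨u, hu⟩ := h.lift _ h0
  haveI : Mono u := by
    rw [Preadditive.mono_iff_cancel_zero]
    intro T t ht
    apply (cancel_mono κ).1
    rw [zero_comp]
    apply pullback.hom_ext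
    · rw [Category.assoc, ← hu, ← Category.assoc, ht, zero_comp, zero_comp]
    · rw [Category.assoc, kernel.condition, comp_zero, zero_comp]
  have h1 := (D.char_ses hq (SES.of_mono u)).1
  have h2 : (D.Ev (kernel s)).count 1 = 0 := by
    rw [h1, Multiset.count_add] at hc
    omega
  obtain ⟨σ, hσ⟩ := D.exists_section hq (SES.of_epi s) h2
  refine ⟨σ ≫ pullback.fst p y, ?_⟩
  rw [Category.assoc, hsq, ← Category.assoc, hσ, Category.id_comp]

/-- no cycles on an object without eigenvalue `1`. -/
lemma hom_eq_zero (D : FrobeniusStructure q C) (hq : 1 < q) {K : C}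
    (hc : (D.Ev K).count 1 = 0) (z : 𝟙_ C ⟶ K) : z = 0 := by
  by_contra hne
  have h := (D.char_cokernel hq z hne).1
  rw [h] at hc
  simp at hc

/-- A realisation functor (for instance `ℓ`-adic cohomology with coefficients extended to
`ℂ ≅ ℚ̄_ℓ`): the multiset `Ev M + Od M` is the multiset of the eigenvalues of Frobenius on `H(M)`. -/
structure Realisation (D : FrobeniusStructure q C) where
  H : C ⥤ ModuleCat.{w} ℂ
  finite : ∀ M : C, Module.Finite ℂ (H.obj M)
  charpoly : ∀ M : C, (H.map (D.Fr M)).hom.charpoly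
    = ((D.Ev M + D.Od M).map (fun α => Polynomial.X - Polynomial.C α)).prod

namespace Realisation

variable {D : FrobeniusStructure q C}

/-- the generalized eigenspace of Frobenius on `H(M)` for the eigenvalue `1`. -/
noncomputable def gen (W : Realisation.{v, u, w} D) (M : C) : Submodule ℂ (W.H.obj M) :=
  Module.End.maxGenEigenspace (W.H.map (D.Fr M)).hom 1

lemma finrank_gen (W : Realisation.{v, u, w} D) (hq : 1 < q) (M : C) :
    Module.finrank ℂ (W.gen M) = (D.Ev M).count 1 := by
  haveI := W.finite M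
  unfold gen
  rw [LinearMap.finrank_maxGenEigenspace_eq, W.charpoly]
  have h0 : (D.Od M).count 1 = 0 := by
    rw [Multiset.count_eq_zero]
    intro h
    exact D.parity hq h ⟨0, by simp⟩
  have h1 : ((D.Ev M + D.Od M).map (fun α => Polynomial.X - Polynomial.C α)).prod.roots
      = D.Ev M + D.Od M := Polynomial.roots_multiset_prod_X_sub_C _
  rw [← Polynomial.count_roots, h1, Multiset.count_add, h0, add_zero]

lemma map_mem_gen (W : Realisation.{v, u, w} D) {M N : C} (f : M ⟶ N) {x : W.H.obj M}
    (hx : x ∈ W.gen M) : (W.H.map f).hom x ∈ W.gen N := by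
  unfold gen at *
  rw [Module.End.mem_maxGenEigenspace] at *
  obtain ⟨k, hk⟩ := hx
  refine ⟨k, ?_⟩
  have hcomm : ∀ y, ((W.H.map (D.Fr N)).hom - (1 : ℂ) • (1 : Module.End ℂ (W.H.obj N)))
      ((W.H.map f).hom y) = (W.H.map f).hom
        (((W.H.map (D.Fr M)).hom - (1 : ℂ) • (1 : Module.End ℂ (W.H.obj M))) y) := by
    intro y
    have h1 : (W.H.map (D.Fr N)).hom ((W.H.map f).hom y)
        = (W.H.map f).hom ((W.H.map (D.Fr M)).hom y) := by
      have := congrArg (fun g => g.hom y) (congrArg W.H.map (D.Fr_natural f))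
      simpa using this.symm
    rw [LinearMap.sub_apply, h1, LinearMap.sub_apply, map_sub]
    simp
  have hpow : ∀ (k : ℕ) (y : W.H.obj M),
      (((W.H.map (D.Fr N)).hom - (1 : ℂ) • (1 : Module.End ℂ (W.H.obj N))) ^ k)
      ((W.H.map f).hom y) = (W.H.map f).hom
        ((((W.H.map (D.Fr M)).hom - (1 : ℂ) • (1 : Module.End ℂ (W.H.obj M))) ^ k) y) := by
    intro k
    induction k with
    | zero => intro y; simp
    | succ k ih =>
      intro y
      rw [pow_succ, Module.End.mul_apply, hcomm, ih, pow_succ, Module.End.mul_apply]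
  rw [hpow, hk, map_zero]

/-- the dimension inequalities. -/
lemma count_le_of_injOn (W : Realisation.{v, u, w} D) (hq : 1 < q) {M N : C} (f : M ⟶ N)
    (hf : Set.InjOn (W.H.map f).hom (W.gen M)) : (D.Ev M).count 1 ≤ (D.Ev N).count 1 := by
  rw [← W.finrank_gen hq, ← W.finrank_gen hq]
  haveI := W.finite N
  let g : W.gen M →ₗ[ℂ] W.gen N :=
    ((W.H.map f).hom.domRestrict (W.gen M)).codRestrict (W.gen N)
      (fun x => W.map_mem_gen f x.2)
  refine LinearMap.finrank_le_finrank_of_injective (f := g) ?_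
  intro x y hxy
  have h1 : (W.H.map f).hom x = (W.H.map f).hom y := congrArg Subtype.val hxy
  exact Subtype.ext (hf x.2 y.2 h1)

lemma count_le_of_surjOn (W : Realisation.{v, u, w} D) (hq : 1 < q) {M N : C} (f : M ⟶ N)
    (hf : Set.SurjOn (W.H.map f).hom (W.gen M) (W.gen N)) :
    (D.Ev N).count 1 ≤ (D.Ev M).count 1 := by
  rw [← W.finrank_gen hq, ← W.finrank_gen hq]
  haveI := W.finite M
  let g : W.gen M →ₗ[ℂ] W.gen N :=
    ((W.H.map f).hom.domRestrict (W.gen M)).codRestrict (W.gen N)
      (fun x => W.map_mem_gen f x.2)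
  have hg : Function.Surjective g := by
    rintro ⟨y, hy⟩
    obtain ⟨x, hx, hxy⟩ := hf hy
    exact ⟨⟨x, hx⟩, Subtype.ext hxy⟩
  exact LinearMap.finrank_le_finrank_of_surjective hg

/-- **Cycles and injections in cohomology.** -/
theorem injective_comp (W : Realisation.{v, u, w} D) (hq : 1 < q) {A B : C} (f : A ⟶ B)
    (hf : Set.InjOn (W.H.map f).hom (W.gen A)) :
    Function.Injective (fun x : 𝟙_ C ⟶ A => x ≫ f) := by
  set e := Abelian.factorThruImage f with he
  set m := Abelian.image.ι f with hm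
  have hfac : e ≫ m = f := Abelian.image.fac f
  have hHf : ∀ x, (W.H.map f).hom x = (W.H.map m).hom ((W.H.map e).hom x) := by
    intro x
    have := congrArg (fun g => g.hom x) (congrArg W.H.map hfac)
    simpa using this.symm
  have h1 := W.count_le_of_injOn hq e (by
    intro x hx y hy hxy
    apply hf hx hy
    rw [hHf, hHf, hxy])
  have hse := SES.of_epi e
  have h3 := (D.char_ses hq hse).1
  have h5 : (D.Ev (kernel e)).count 1 = 0 := by
    rw [h3, Multiset.count_add] at h1
    omega
  intro x y hxy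
  have hxy' : x ≫ f = y ≫ f := hxy
  rw [← sub_eq_zero]
  have h7 : (x - y) ≫ e = 0 := by
    apply (cancel_mono m).1
    rw [Category.assoc, hfac, Preadditive.sub_comp, hxy', sub_self, zero_comp]
  obtain ⟨l, hl⟩ := hse.lift _ h7
  rw [← hl, D.hom_eq_zero hq h5 l, zero_comp]

/-- **Cycles and isomorphisms in cohomology.** -/
theorem bijective_comp (W : Realisation.{v, u, w} D) (hq : 1 < q) {A B : C} (f : A ⟶ B)
    (hf : Set.BijOn (W.H.map f).hom (W.gen A) (W.gen B)) :
    Function.Bijective (fun x : 𝟙_ C ⟶ A => x ≫ f) := by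
  set e := Abelian.factorThruImage f with he
  set m := Abelian.image.ι f with hm
  have hfac : e ≫ m = f := Abelian.image.fac f
  have hHf : ∀ x, (W.H.map f).hom x = (W.H.map m).hom ((W.H.map e).hom x) := by
    intro x
    have := congrArg (fun g => g.hom x) (congrArg W.H.map hfac)
    simpa using this.symm
  have h1 := W.count_le_of_injOn hq e (by
    intro x hx y hy hxy
    apply hf.injOn hx hy
    rw [hHf, hHf, hxy])
  have h2 := W.count_le_of_surjOn hq m (by
    intro y hy
    obtain ⟨x, hx, hxy⟩ := hf.surjOn hy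
    exact ⟨_, W.map_mem_gen e hx, by rw [← hHf]; exact hxy⟩)
  have hse := SES.of_epi e
  have h3 := (D.char_ses hq hse).1
  have h4 := (D.char_ses hq (SES.of_mono m)).1
  have h5 : (D.Ev (kernel e)).count 1 = 0 := by
    rw [h3, Multiset.count_add] at h1
    omega
  have h6 : (D.Ev (cokernel m)).count 1 = 0 := by
    rw [h4, Multiset.count_add] at h2
    omega
  constructor
  · intro x y hxy
    have hxy' : x ≫ f = y ≫ f := hxy
    rw [← sub_eq_zero]
    have h7 : (x - y) ≫ e = 0 := by
      apply (cancel_mono m).1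
      rw [Category.assoc, hfac, Preadditive.sub_comp, hxy', sub_self, zero_comp]
    obtain ⟨l, hl⟩ := hse.lift _ h7
    rw [← hl, D.hom_eq_zero hq h5 l, zero_comp]
  · intro y
    obtain ⟨y', hy'⟩ := (SES.of_mono m).lift y (D.hom_eq_zero hq h6 _)
    obtain ⟨x, hx⟩ := D.exists_lift hq hse h5 y'
    exact ⟨x, by change x ≫ f = y; rw [← hfac, ← Category.assoc, hx, hy']⟩

end Realisation

end FrobeniusStructure

end Pool.Agent.Q303.CM
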