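import Pool.Agent.Q303.CM.AbType

/-!
Multiplicity free actions of commutative algebras.
-/

set_option linter.style.haveILetI false
set_option linter.unusedSectionVars false

open CategoryTheory CategoryTheory.Limits MonoidalCategory ExactPairing BraidedCategory

open scoped TensorProduct

universe v u

namespace Pool.Agent.Q303.CM

section Alg

/-- a finite reduced `ℚ`-algebra is unramified. -/
lemma unramified_of_isReduced (E : Type) [CommRing E] [Algebra ℚ E] [Module.Finite ℚ E]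
    [IsReduced E] : Algebra.FormallyUnramified ℚ E := by
  haveI : IsArtinianRing E := IsArtinianRing.of_finite ℚ E
  letI : ∀ m : MaximalSpectrum E, Field (E ⧸ m.asIdeal) :=
    fun m => Ideal.Quotient.field m.asIdeal
  have h : Algebra.FormallyEtale ℚ E := by
    rw [Algebra.FormallyEtale.iff_exists_algEquiv_prod]
    exact ⟨MaximalSpectrum E, inferInstance, fun m => E ⧸ m.asIdeal, inferInstance,
      fun m => inferInstance, (IsArtinianRing.equivPi E).restrictScalars ℚ,
      fun m => inferInstance⟩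
  infer_instance

/-- Dedekind: the number of characters non-zero at an idempotent. -/
lemma card_le_finrank_idem {E : Type} [CommRing E] [Algebra ℚ E] [Module.Finite ℚ E]
    (S : Finset (E →ₐ[ℚ] ℂ)) (e : E) (hS : ∀ χ ∈ S, χ e = 1) :
    S.card ≤ Module.finrank ℚ (LinearMap.range (Algebra.lmul ℚ E e)) := by
  classical
  set V := LinearMap.range (Algebra.lmul ℚ E e) with hV
  let T : (V →ₗ[ℚ] ℂ) →ₗ[ℂ] (E → ℂ) :=
    { toFun := fun φ x => φ ⟨Algebra.lmul ℚ E e x, ⟨x, rfl⟩⟩
      map_add' := by intro φ ψ; rfl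
      map_smul' := by intro r φ; rfl }
  let fam : S → (V →ₗ[ℚ] ℂ) := fun χ => (χ : E →ₐ[ℚ] ℂ).toLinearMap.domRestrict V
  have hfam : ∀ χ : S, T (fam χ) = (χ : E →ₐ[ℚ] ℂ) := by
    intro χ
    funext x
    change (χ : E →ₐ[ℚ] ℂ) (e * x) = (χ : E →ₐ[ℚ] ℂ) x
    rw [map_mul, hS _ χ.2, one_mul]
  let toMon : S → (E →* ℂ) := fun χ => ((χ : E →ₐ[ℚ] ℂ) : E →* ℂ)
  have hinj : Function.Injective toMon := by
    intro a b h
    apply Subtype.ext
    apply AlgHom.ext
    intro x
    exact congrArg (fun f : E →* ℂ => f x) h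
  have hli : LinearIndependent ℂ (fun χ : S => T (fam χ)) := by
    have h1 := (linearIndependent_monoidHom E ℂ).comp toMon hinj
    have h2 : (fun χ : S => T (fam χ)) = (fun f : E →* ℂ => (f : E → ℂ)) ∘ toMon := by
      funext χ
      rw [hfam]; rfl
    rw [h2]
    exact h1
  have hli' : LinearIndependent ℂ fam := LinearIndependent.of_comp T hli
  have h3 := hli'.fintype_card_le_finrank
  rw [Module.finrank_linearMap_self, Fintype.card_coe] at h3
  exact h3

lemma idem_values {E : Type} [CommRing E] [Algebra ℚ E] (χ : E →ₐ[ℚ] ℂ) {e : E}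
    (he : e * e = e) : χ e = 0 ∨ χ e = 1 := by
  have h : χ e * χ e = χ e := by rw [← map_mul, he]
  have h2 : χ e * (χ e - 1) = 0 := by linear_combination h
  rcases mul_eq_zero.1 h2 with h | h
  · exact Or.inl h
  · exact Or.inr (sub_eq_zero.1 h)

end Alg

variable {C : Type u} [Category.{v} C] [Abelian C] [Linear ℚ C] [MonoidalCategory C]
  [MonoidalPreadditive C] [MonoidalLinear ℚ C] [SymmetricCategory C] [RightRigidCategory C]
  {q : ℝ}

namespace FrobeniusStructure

/-- the key lemma, general form. -/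
theorem zero_of_numTriv' (D : FrobeniusStructure q C) (hq : 1 < q) {T : C}
    (hpure : D.Ev T = 0 ∨ D.Od T = 0) {R : Type*} [CommRing R] [Algebra ℚ R]
    [Module.Finite ℚ R] [IsReduced R] (ρ : R →ₐ[ℚ] End T) (σ : ℤˣ)
    (htr : ∀ e : R, e * e = e → ∃ d' : ℕ,
      catTrace (ρ e : T ⟶ T) = ((σ : ℤ) * (d' : ℤ) : ℚ) • 𝟙 (𝟙_ C) ∧
      d' ≤ Module.finrank ℚ (LinearMap.range (Algebra.lmul ℚ R e)))
    (z : 𝟙_ C ⟶ T) (hz : ∀ w : T ⟶ 𝟙_ C, z ≫ w = 0) : z = 0 := by
  haveI : IsArtinianRing R := IsArtinianRing.of_finite ℚ R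
  -- the annihilator
  let ann : Ideal R :=
    { carrier := {x | z ≫ (ρ x : T ⟶ T) = 0}
      add_mem' := by
        intro a b ha hb
        change z ≫ (ρ (a + b) : T ⟶ T) = 0
        rw [map_add]
        change z ≫ ((ρ a : T ⟶ T) + (ρ b : T ⟶ T)) = 0
        rw [Preadditive.comp_add]
        have ha' : z ≫ (ρ a : T ⟶ T) = 0 := ha
        have hb' : z ≫ (ρ b : T ⟶ T) = 0 := hb
        rw [ha', hb', add_zero]
      zero_mem' := by
        change z ≫ (ρ 0 : T ⟶ T) = 0
        rw [map_zero]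
        exact comp_zero
      smul_mem' := by
        intro c x hx
        change z ≫ (ρ (c * x) : T ⟶ T) = 0
        rw [map_mul]
        change z ≫ ((ρ x : T ⟶ T) ≫ (ρ c : T ⟶ T)) = 0
        have hx' : z ≫ (ρ x : T ⟶ T) = 0 := hx
        rw [← Category.assoc, hx', zero_comp] }
  obtain ⟨e, hee, hann⟩ := exists_idem ann
  have hann' : ∀ x : R, z ≫ (ρ x : T ⟶ T) = 0 ↔ x * e = 0 := hann
  have hmul : ∀ x y : R, (ρ (x * y) : T ⟶ T) = (ρ y : T ⟶ T) ≫ (ρ x : T ⟶ T) := by
    intro x y; rw [map_mul]; rfl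
  have hze : z ≫ (ρ e : T ⟶ T) = z := by
    have h1 : z ≫ (ρ (1 - e) : T ⟶ T) = 0 := by
      rw [hann', sub_mul, one_mul, hee, sub_self]
    have h3 : (ρ (1 - e) : T ⟶ T) = 𝟙 T - (show T ⟶ T from ρ e) := by
      rw [map_sub, map_one]; rfl
    rw [h3, Preadditive.comp_sub, Category.comp_id, sub_eq_zero] at h1
    exact h1.symm
  -- split the idempotent
  obtain ⟨U, ι, π, hιπ, hπι⟩ := IsIdempotentComplete.idempotents_split T (ρ e : T ⟶ T) (by
    rw [← hmul, hee])
  haveI : Mono ι := (SplitMono.mk π hιπ).mono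
  have hU : D.Ev U = 0 ∨ D.Od U = 0 := by
    have h := D.char_ses hq (SES.of_mono ι)
    rcases hpure with h0 | h0
    · left
      rw [h0] at h
      exact (add_eq_zero.1 h.1.symm).1
    · right
      rw [h0] at h
      exact (add_eq_zero.1 h.2.symm).1
  obtain ⟨d', hd', hle⟩ := htr e hee
  have htrU : catTrace (𝟙 U) = ((σ : ℤ) * (d' : ℤ) : ℚ) • 𝟙 (𝟙_ C) := by
    rw [← hd', ← hπι, catTrace_comm, hιπ]
  have hlef := D.lef U 0 (r := ((σ : ℤ) * (d' : ℤ) : ℚ)) (by
    rw [pow_zero]; exact htrU)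
  rw [psum_card, psum_card] at hlef
  set d := Module.finrank ℚ (LinearMap.range (Algebra.lmul ℚ R e)) with hd
  have hlef' : ((σ : ℤ) : ℤ) * (d' : ℤ) = ((D.Ev U).card : ℤ) - ((D.Od U).card : ℤ) := by
    have : (((σ : ℤ) * (d' : ℤ) : ℤ) : ℂ)
        = (((((D.Ev U).card : ℤ) - ((D.Od U).card : ℤ) : ℤ)) : ℂ) := by
      push_cast
      push_cast at hlef
      exact hlef
    exact_mod_cast this
  have hcard : (D.Ev U).card + (D.Od U).card = d' := by
    have hc : ∀ a b : ℕ, (a = 0 ∨ b = 0) → ((σ : ℤ) : ℤ) * (d' : ℤ) = (a : ℤ) - (b : ℤ) →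
        a + b = d' := by
      intro a b hab h
      rcases Int.units_eq_one_or σ with hσ | hσ
      · rw [hσ, Units.val_one, one_mul] at h
        omega
      · rw [hσ, Units.val_neg, Units.val_one, neg_one_mul] at h
        omega
    refine hc _ _ ?_ hlef'
    rcases hU with h0 | h0
    · left; rw [h0]; rfl
    · right; rw [h0]; rfl
  -- the dimension of `Hom(𝟙, U)`
  haveI := D.finite_hom hq U
  have hdim : d ≤ Module.finrank ℚ (𝟙_ C ⟶ U) := by
    let φ : R →ₗ[ℚ] (𝟙_ C ⟶ U) :=
      { toFun := fun x => z ≫ (ρ x : T ⟶ T) ≫ π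
        map_add' := by
          intro x y
          rw [map_add]
          change z ≫ ((ρ x : T ⟶ T) + (ρ y : T ⟶ T)) ≫ π = _
          rw [Preadditive.add_comp, Preadditive.comp_add]
        map_smul' := by
          intro r x
          rw [map_smul]
          change z ≫ (r • (ρ x : T ⟶ T)) ≫ π = _
          rw [Linear.smul_comp, Linear.comp_smul]
          rfl }
    have hinj : Function.Injective (φ.domRestrict (LinearMap.range (Algebra.lmul ℚ R e))) := by
      rw [injective_iff_map_eq_zero]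
      rintro ⟨_, y, rfl⟩ hy
      have hy' : z ≫ (ρ (e * y) : T ⟶ T) ≫ π = 0 := hy
      have h1 : z ≫ (ρ (e * y) : T ⟶ T) ≫ π ≫ ι = 0 := by
        have := congrArg (fun s => s ≫ ι) hy'
        simpa using this
      rw [hπι, ← hmul, ← mul_assoc, hee, hann'] at h1
      have h2 : e * y = 0 := by
        rw [mul_assoc, mul_comm y e, ← mul_assoc, hee] at h1
        exact h1
      apply Subtype.ext
      exact h2
    exact LinearMap.finrank_le_finrank_of_injective hinj
  have hspl := D.id_mem_unitSpan hq U (by rw [hcard]; exact hle.trans hdim)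
  have hz' : z ≫ π = 0 := by
    apply zero_of_unitSpan hspl
    intro w
    rw [Category.assoc]
    exact hz _
  rw [← hze, ← hπι, ← Category.assoc, hz', zero_comp]

/-- multiplicity free actions. -/
structure MFAction (D : FrobeniusStructure q C) (T : C) (E : Type) [CommRing E]
    [Algebra ℚ E] where
  ρ : E →ₐ[ℚ] End T
  σ : ℤˣ
  S : Finset (E →ₐ[ℚ] ℂ)
  trace_eq : ∀ x : E, ∃ r : ℚ, catTrace (ρ x : T ⟶ T) = r • 𝟙 (𝟙_ C) ∧
    (r : ℂ) = ((σ : ℤ) : ℂ) * ∑ χ ∈ S, χ x
  pure : D.Ev T = 0 ∨ D.Od T = 0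

/-- numerically trivial maps to objects with a multiplicity free action. -/
theorem MFAction.zero_of_numTriv {D : FrobeniusStructure q C} (hq : 1 < q) {T : C} {E : Type}
    [CommRing E] [Algebra ℚ E] [Module.Finite ℚ E] [IsReduced E] (a : MFAction D T E)
    (z : 𝟙_ C ⟶ T) (hz : ∀ w : T ⟶ 𝟙_ C, z ≫ w = 0) : z = 0 := by
  classical
  refine D.zero_of_numTriv' hq a.pure a.ρ a.σ (fun e he => ?_) z hz
  obtain ⟨r, hr, hr'⟩ := a.trace_eq e
  refine ⟨(a.S.filter (fun χ => χ e = 1)).card, ?_, ?_⟩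
  · have h1 : ∑ χ ∈ a.S, χ e = (((a.S.filter (fun χ => χ e = 1)).card : ℕ) : ℂ) := by
      rw [Finset.card_filter]
      push_cast
      refine Finset.sum_congr rfl fun χ _ => ?_
      rcases idem_values χ he with h | h
      · rw [h]; simp
      · rw [h]; simp
    rw [hr]
    congr 1
    have h2 : (r : ℂ) = ((((a.σ : ℤ) : ℚ) *
        (((a.S.filter (fun χ => χ e = 1)).card : ℤ) : ℚ) : ℚ) : ℂ) := by
      rw [hr', h1]; push_cast; ring
    exact_mod_cast h2
  · apply card_le_finrank_idem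
    intro χ hχ
    exact (Finset.mem_filter.1 hχ).2

/-- the tensor product of two characters. -/
noncomputable def tchar {E F : Type} [CommRing E] [Algebra ℚ E] [CommRing F] [Algebra ℚ F]
    (p : (E →ₐ[ℚ] ℂ) × (F →ₐ[ℚ] ℂ)) : (E ⊗[ℚ] F) →ₐ[ℚ] ℂ :=
  Algebra.TensorProduct.lift p.1 p.2 (fun _ _ => Commute.all _ _)

lemma tchar_tmul {E F : Type} [CommRing E] [Algebra ℚ E] [CommRing F] [Algebra ℚ F]
    (p : (E →ₐ[ℚ] ℂ) × (F →ₐ[ℚ] ℂ)) (x : E) (y : F) :
    tchar p (x ⊗ₜ y) = p.1 x * p.2 y := by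
  unfold tchar
  rw [Algebra.TensorProduct.lift_tmul]

lemma tchar_injective {E F : Type} [CommRing E] [Algebra ℚ E] [CommRing F] [Algebra ℚ F] :
    Function.Injective (tchar (E := E) (F := F)) := by
  rintro ⟨c, d⟩ ⟨c', d'⟩ h
  have h1 : c = c' := by
    apply AlgHom.ext
    intro x
    have h2 : tchar (c, d) (x ⊗ₜ 1) = tchar (c', d') (x ⊗ₜ 1) := by rw [h]
    rw [tchar_tmul, tchar_tmul] at h2
    simpa using h2
  have h2 : d = d' := by
    apply AlgHom.ext
    intro x
    have h2 : tchar (c, d) (1 ⊗ₜ x) = tchar (c', d') (1 ⊗ₜ x) := by rw [h]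
    rw [tchar_tmul, tchar_tmul] at h2
    simpa using h2
  rw [h1, h2]

/-- tensor products of multiplicity free actions. -/
noncomputable def MFAction.tensor {D : FrobeniusStructure q C} (hq : 1 < q) {V T : C}
    {E F : Type}
    [CommRing E] [Algebra ℚ E] [CommRing F] [Algebra ℚ F] [Module.Finite ℚ E]
    [Module.Finite ℚ F] (a : MFAction D V E) (b : MFAction D T F) :
    MFAction D (V ⊗ T) (E ⊗[ℚ] F) where
  ρ := actT a.ρ b.ρ
  σ := a.σ * b.σ
  S := (a.S ×ˢ b.S).map ⟨tchar, tchar_injective⟩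
  trace_eq x := by
    induction x using TensorProduct.induction_on with
    | zero =>
      refine ⟨0, ?_, ?_⟩
      · rw [map_zero, zero_smul]
        have h : catTrace (0 : V ⊗ T ⟶ V ⊗ T) = 0 := by
          have := catTrace_smul (0 : V ⊗ T ⟶ V ⊗ T) (0 : ℚ)
          rw [zero_smul, zero_smul] at this
          exact this
        exact h
      · simp
    | tmul x y =>
      obtain ⟨r, hr, hr'⟩ := a.trace_eq x
      obtain ⟨s, hs, hs'⟩ := b.trace_eq y
      refine ⟨r * s, ?_, ?_⟩
      · rw [actT_tmul, catTrace_tensor _ _ _ _ hr hs]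
      · push_cast
        rw [hr', hs', Finset.sum_map, Finset.sum_product]
        simp only [Function.Embedding.coeFn_mk, tchar_tmul]
        rw [mul_mul_mul_comm, Finset.sum_mul_sum]
    | add x y hx hy =>
      obtain ⟨r, hr, hr'⟩ := hx
      obtain ⟨s, hs, hs'⟩ := hy
      refine ⟨r + s, ?_, ?_⟩
      · rw [map_add, add_smul, ← hr, ← hs]
        exact catTrace_add _ _
      · rw [Rat.cast_add, hr', hs', ← mul_add, ← Finset.sum_add_distrib]
        simp only [map_add]
  pure := by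
    obtain ⟨h1, h2⟩ := D.char_tensor hq V T
    rcases a.pure with ha | ha <;> rcases b.pure with hb | hb
    · right; rw [h2, ha, hb]; simp [mprod_zero, zero_mprod]
    · left; rw [h1, ha, hb]; simp [mprod_zero, zero_mprod]
    · left; rw [h1, ha, hb]; simp [mprod_zero, zero_mprod]
    · right; rw [h2, ha, hb]; simp [mprod_zero, zero_mprod]

end FrobeniusStructure

end Pool.Agent.Q303.CM
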