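import Pool.Agent.Q303.CM.Trace

/-!
Multiplicativity of the categorical trace in a symmetric category.
-/

set_option linter.style.haveILetI false
set_option linter.unusedSectionVars false

open CategoryTheory CategoryTheory.Limits MonoidalCategory ExactPairing BraidedCategory

universe v u

namespace Pool.Agent.Q303.CM

section General

variable {C : Type u} [Category.{v} C] [MonoidalCategory C] [BraidedCategory C]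

/-- the evaluation on `X ⊗ Y` for a pairing `(X, Y)`. -/
def evp (X Y : C) [ExactPairing X Y] : X ⊗ Y ⟶ 𝟙_ C := (β_ X Y).hom ≫ ε_ X Y

/-- the trace computed with a pairing `(X, Y)`. -/
def trp (X Y : C) [ExactPairing X Y] (f : X ⟶ X) : 𝟙_ C ⟶ 𝟙_ C :=
  η_ X Y ≫ f ▷ Y ≫ (β_ X Y).hom ≫ ε_ X Y

lemma trp_eq (X Y Y' : C) (a : ExactPairing X Y) (b : ExactPairing X Y') (f : X ⟶ X) :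
    trp X Y f = trp X Y' f := by
  let d1 : HasRightDual X := { rightDual := Y, exact := a }
  let d2 : HasRightDual X := { rightDual := Y', exact := b }
  have h1 := @coevaluation_comp_rightAdjointMate C _ _ X X d1 d2 (𝟙 X)
  have h2 := @rightAdjointMate_comp_evaluation C _ _ X X d1 d2 (𝟙 X)
  set φ : Y' ⟶ Y := @rightAdjointMate C _ _ X X d1 d2 (𝟙 X) with hφ
  have h1' : η_ X Y' ≫ X ◁ φ = η_ X Y := by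
    rw [id_whiskerRight, Category.comp_id] at h1
    exact h1
  have h2' : φ ▷ X ≫ ε_ X Y = ε_ X Y' := by
    rw [whiskerLeft_id, Category.id_comp] at h2
    exact h2
  unfold trp
  rw [← h1', ← h2', Category.assoc, whisker_exchange_assoc, braiding_naturality_right_assoc]

end General

section Sym

variable {C : Type u} [Category.{v} C] [MonoidalCategory C] [SymmetricCategory C]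

/-- `X ⊗ Y ⊗ X' → Y` in two ways. -/
lemma slide (X Y X' : C) (e : X ⊗ X' ⟶ 𝟙_ C) :
    𝟙 ((X ⊗ Y) ⊗ X') ⊗≫ X ◁ (β_ Y X').hom ⊗≫ e ▷ Y ⊗≫ 𝟙 Y
      = 𝟙 ((X ⊗ Y) ⊗ X') ⊗≫ (β_ X Y).hom ▷ X' ⊗≫ Y ◁ e ⊗≫ 𝟙 Y := by
  have h := braiding_naturality_right Y e
  -- Y ◁ e ≫ β_{Y,𝟙} = β_{Y, X ⊗ X'} ≫ e ▷ Y
  have h2 : Y ◁ e ⊗≫ 𝟙 Y = 𝟙 (Y ⊗ X ⊗ X') ⊗≫ (β_ Y X).hom ▷ X' ⊗≫ X ◁ (β_ Y X').hom ⊗≫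
      e ▷ Y ⊗≫ 𝟙 Y := by
    have h3 : (Y ◁ e ≫ (β_ Y (𝟙_ C)).hom) ≫ (λ_ Y).hom = Y ◁ e ⊗≫ 𝟙 Y := by
      rw [braiding_tensorUnit_right]
      monoidal
    rw [← h3, h, braiding_tensor_right_hom]
    monoidal
  rw [h2]
  have h4 : 𝟙 ((X ⊗ Y) ⊗ X') ⊗≫ (β_ X Y).hom ▷ X' ⊗≫
      (𝟙 (Y ⊗ X ⊗ X') ⊗≫ (β_ Y X).hom ▷ X' ⊗≫ X ◁ (β_ Y X').hom ⊗≫ e ▷ Y ⊗≫ 𝟙 Y)
      = 𝟙 ((X ⊗ Y) ⊗ X') ⊗≫ ((β_ X Y).hom ≫ (β_ Y X).hom) ▷ X' ⊗≫ X ◁ (β_ Y X').hom ⊗≫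
      e ▷ Y ⊗≫ 𝟙 Y := by
    monoidal
  rw [h4, SymmetricCategory.symmetry]
  monoidal

lemma slide2 (X Y Y' : C) (e : Y' ⊗ Y ⟶ 𝟙_ C) :
    𝟙 ((X ⊗ Y') ⊗ Y) ⊗≫ (β_ X Y').hom ▷ Y ⊗≫ Y' ◁ (β_ X Y).hom ⊗≫ e ▷ X ⊗≫ 𝟙 X
      = 𝟙 ((X ⊗ Y') ⊗ Y) ⊗≫ X ◁ e ⊗≫ 𝟙 X := by
  have h := braiding_naturality_right X e
  have h3 : (X ◁ e ≫ (β_ X (𝟙_ C)).hom) ≫ (λ_ X).hom = X ◁ e ⊗≫ 𝟙 X := by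
    rw [braiding_tensorUnit_right]
    monoidal
  have h5 : 𝟙 ((X ⊗ Y') ⊗ Y) ⊗≫ X ◁ e ⊗≫ 𝟙 X = 𝟙 ((X ⊗ Y') ⊗ Y) ⊗≫
      ((X ◁ e ≫ (β_ X (𝟙_ C)).hom) ≫ (λ_ X).hom) := by
    rw [h3]
  rw [h5, h, braiding_tensor_right_hom]
  monoidal

lemma evp_tensor (X Y X' Y' : C) [ExactPairing X X'] [ExactPairing Y Y'] :
    evp (X ⊗ Y) (Y' ⊗ X') =
      𝟙 ((X ⊗ Y) ⊗ Y' ⊗ X') ⊗≫ X ◁ (evp Y Y') ▷ X' ⊗≫ evp X X' := by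
  unfold evp
  rw [ExactPairing.tensor_evaluation, braiding_tensor_left_hom, braiding_tensor_right_hom,
    braiding_tensor_right_hom]
  calc
    _ = 𝟙 ((X ⊗ Y) ⊗ Y' ⊗ X') ⊗≫ X ◁ (β_ Y Y').hom ▷ X' ⊗≫
        ((X ⊗ Y') ◁ (β_ Y X').hom ≫ (β_ X Y').hom ▷ (X' ⊗ Y)) ⊗≫
        Y' ◁ (β_ X X').hom ▷ Y ⊗≫ Y' ◁ (ε_ X X') ▷ Y ⊗≫ ε_ Y Y' := by
      monoidal
    _ = 𝟙 ((X ⊗ Y) ⊗ Y' ⊗ X') ⊗≫ X ◁ (β_ Y Y').hom ▷ X' ⊗≫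
        ((β_ X Y').hom ▷ (Y ⊗ X')) ⊗≫
        Y' ◁ (𝟙 ((X ⊗ Y) ⊗ X') ⊗≫ X ◁ (β_ Y X').hom ⊗≫
          ((β_ X X').hom ≫ ε_ X X') ▷ Y ⊗≫ 𝟙 Y) ⊗≫ ε_ Y Y' := by
      rw [whisker_exchange]; monoidal
    _ = 𝟙 ((X ⊗ Y) ⊗ Y' ⊗ X') ⊗≫ X ◁ (β_ Y Y').hom ▷ X' ⊗≫
        ((β_ X Y').hom ▷ (Y ⊗ X')) ⊗≫
        Y' ◁ (𝟙 ((X ⊗ Y) ⊗ X') ⊗≫ (β_ X Y).hom ▷ X' ⊗≫
          Y ◁ ((β_ X X').hom ≫ ε_ X X') ⊗≫ 𝟙 Y) ⊗≫ ε_ Y Y' := by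
      rw [slide]
    _ = 𝟙 ((X ⊗ Y) ⊗ Y' ⊗ X') ⊗≫ X ◁ (β_ Y Y').hom ▷ X' ⊗≫
        ((β_ X Y').hom ▷ (Y ⊗ X')) ⊗≫ Y' ◁ (β_ X Y).hom ▷ X' ⊗≫
        ((Y' ⊗ Y) ◁ ((β_ X X').hom ≫ ε_ X X') ≫ ε_ Y Y' ▷ (𝟙_ C)) ⊗≫ 𝟙 (𝟙_ C) := by
      monoidal
    _ = 𝟙 ((X ⊗ Y) ⊗ Y' ⊗ X') ⊗≫ X ◁ (β_ Y Y').hom ▷ X' ⊗≫
        (𝟙 ((X ⊗ Y') ⊗ Y) ⊗≫ (β_ X Y').hom ▷ Y ⊗≫ Y' ◁ (β_ X Y).hom ⊗≫
          ε_ Y Y' ▷ X ⊗≫ 𝟙 X) ▷ X' ⊗≫ ((β_ X X').hom ≫ ε_ X X') := by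
      rw [whisker_exchange]; monoidal
    _ = _ := by
      rw [slide2]; monoidal

lemma trp_tensor (X Y X' Y' : C) [ExactPairing X X'] [ExactPairing Y Y'] (f : X ⟶ X)
    (g : Y ⟶ Y) :
    trp (X ⊗ Y) (Y' ⊗ X') (f ⊗ₘ g) =
      η_ X X' ⊗≫ f ▷ X' ⊗≫ (X ◁ trp Y Y' g) ▷ X' ⊗≫ (β_ X X').hom ≫ ε_ X X' := by
  have h : trp (X ⊗ Y) (Y' ⊗ X') (f ⊗ₘ g) =
      η_ (X ⊗ Y) (Y' ⊗ X') ≫ (f ⊗ₘ g) ▷ (Y' ⊗ X') ≫ evp (X ⊗ Y) (Y' ⊗ X') := rfl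
  rw [h, evp_tensor, ExactPairing.tensor_coevaluation, MonoidalCategory.tensorHom_def]
  unfold trp evp
  calc
    _ = η_ X X' ⊗≫ ((X ◁ η_ Y Y') ≫ f ▷ (Y ⊗ Y')) ▷ X' ⊗≫ (X ◁ (g ▷ Y')) ▷ X' ⊗≫
        X ◁ ((β_ Y Y').hom ≫ ε_ Y Y') ▷ X' ⊗≫ (β_ X X').hom ≫ ε_ X X' := by
      monoidal
    _ = _ := by
      rw [whisker_exchange]; monoidal

end Sym

section Lin

variable {C : Type u} [Category.{v} C] [Abelian C] [Linear ℚ C] [MonoidalCategory C]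
  [MonoidalPreadditive C] [MonoidalLinear ℚ C] [SymmetricCategory C] [RightRigidCategory C]

lemma catTrace_eq_trp {M : C} (f : M ⟶ M) : catTrace f = trp M Mᘁ f := rfl

lemma catTrace_smul {M : C} (f : M ⟶ M) (r : ℚ) : catTrace (r • f) = r • catTrace f := by
  unfold catTrace
  rw [MonoidalLinear.smul_whiskerRight, Linear.smul_comp, Linear.comp_smul]

lemma catTrace_add {M : C} (f g : M ⟶ M) : catTrace (f + g) = catTrace f + catTrace g := by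
  unfold catTrace
  simp

lemma catTrace_tensor {M N : C} (f : M ⟶ M) (g : N ⟶ N) (r s : ℚ)
    (hf : catTrace f = r • 𝟙 (𝟙_ C)) (hg : catTrace g = s • 𝟙 (𝟙_ C)) :
    catTrace (f ⊗ₘ g) = (r * s) • 𝟙 (𝟙_ C) := by
  rw [catTrace_eq_trp, trp_eq (M ⊗ N) ((M ⊗ N)ᘁ) (Nᘁ ⊗ Mᘁ) inferInstance inferInstance,
    trp_tensor, ← catTrace_eq_trp, hg, MonoidalLinear.whiskerLeft_smul,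
    MonoidalLinear.smul_whiskerRight]
  have h1 : η_ M Mᘁ ⊗≫ f ▷ Mᘁ ⊗≫ (s • (M ◁ 𝟙 (𝟙_ C)) ▷ Mᘁ) ⊗≫ (β_ M Mᘁ).hom ≫ ε_ M Mᘁ
      = s • (η_ M Mᘁ ⊗≫ f ▷ Mᘁ ⊗≫ ((M ◁ 𝟙 (𝟙_ C)) ▷ Mᘁ) ⊗≫ (β_ M Mᘁ).hom ≫ ε_ M Mᘁ) := by
    simp only [monoidalComp, Linear.smul_comp, Linear.comp_smul]
  have h2 : η_ M Mᘁ ⊗≫ f ▷ Mᘁ ⊗≫ ((M ◁ 𝟙 (𝟙_ C)) ▷ Mᘁ) ⊗≫ (β_ M Mᘁ).hom ≫ ε_ M Mᘁ
      = catTrace f := by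
    unfold catTrace
    monoidal
  rw [h1, h2, hf, smul_smul, mul_comm]

end Lin

end Pool.Agent.Q303.CM
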