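import Pool.Agent.Q303.CM.Sep

/-!
Numerically trivial endomorphisms are nilpotent.
-/

set_option linter.style.haveILetI false
set_option linter.unusedSectionVars false

open CategoryTheory CategoryTheory.Limits MonoidalCategory ExactPairing BraidedCategory

open scoped TensorProduct Polynomial

universe v u

namespace Pool.Agent.Q303.CM

/-- Fitting's lemma for one element: some power of `f` is `f ^ k * u` with `u` an idempotent
multiple of `f`. -/
lemma exists_fitting {A : Type*} [CommRing A] [IsArtinianRing A] (f : A) :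
    ∃ (k : ℕ) (h : A), 0 < k ∧ (f ^ k * h) * (f ^ k * h) = f ^ k * h ∧
      f ^ k * (f ^ k * h) = f ^ k := by
  obtain ⟨n, y, hy⟩ := IsArtinian.exists_pow_succ_smul_dvd (R := A) (M := A) f (1 : A)
  rw [smul_eq_mul, smul_eq_mul, mul_one] at hy
  -- f ^ (n+1) * y = f ^ n
  have h1 : ∀ j : ℕ, f ^ (n + j) * y ^ j = f ^ n := by
    intro j
    induction j with
    | zero => simp
    | succ j ih =>
      calc f ^ (n + (j + 1)) * y ^ (j + 1) = (f ^ n.succ * y) * (f ^ j * y ^ j) := by
            rw [Nat.succ_eq_add_one]; ring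
        _ = f ^ (n + j) * y ^ j := by rw [hy]; ring
        _ = f ^ n := ih
  set k := n + 1 with hk
  have h2 : f ^ k * (f ^ k * y ^ k) = f ^ k := by
    have := h1 k
    calc f ^ k * (f ^ k * y ^ k) = f * (f ^ (n + k) * y ^ k) := by rw [hk]; ring
      _ = f * f ^ n := by rw [this]
      _ = f ^ k := by rw [hk]; ring
  refine ⟨k, y ^ k, Nat.succ_pos _, ?_, h2⟩
  calc (f ^ k * y ^ k) * (f ^ k * y ^ k) = (f ^ k * (f ^ k * y ^ k)) * y ^ k := by ring
    _ = f ^ k * y ^ k := by rw [h2]

/-- the iterates of an endomorphism. -/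
def iter {C : Type u} [Category.{v} C] {M : C} (f : M ⟶ M) : ℕ → (M ⟶ M)
  | 0 => 𝟙 M
  | n + 1 => f ≫ iter f n

/-- an endomorphism as an element of the endomorphism monoid. -/
def toEnd {C : Type u} [Category.{v} C] {M : C} (f : M ⟶ M) : End M := f

lemma toEnd_pow {C : Type u} [Category.{v} C] {M : C} (f : M ⟶ M) (n : ℕ) :
    toEnd f ^ n = toEnd (iter f n) := by
  induction n with
  | zero => rw [pow_zero]; rfl
  | succ n ih => rw [pow_succ, ih]; rfl

variable {C : Type u} [Category.{v} C] [Abelian C] [Linear ℚ C] [MonoidalCategory C]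
  [MonoidalPreadditive C] [MonoidalLinear ℚ C] [SymmetricCategory C] [RightRigidCategory C]
  {q : ℝ}

namespace FrobeniusStructure

/-- the number of eigenvalues of Frobenius on the cohomology of `M`. -/
noncomputable def betti (D : FrobeniusStructure q C) (M : C) : ℕ :=
  (D.Ev M).card + (D.Od M).card

/-- an endomorphism all of whose products have trace zero is nilpotent. -/
theorem exists_iter_eq_zero (D : FrobeniusStructure q C) (hq : 1 < q) {M : C} (f : M ⟶ M)
    (hf : ∀ g : M ⟶ M, catTrace (f ≫ g) = 0) : ∃ k, iter f k = 0 := by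
  haveI : Module.Finite ℚ (End M) := D.finite_hom' hq M M
  let A : Subalgebra ℚ (End M) := Algebra.adjoin ℚ {toEnd f}
  haveI : IsMulCommutative A := Algebra.isMulCommutative_adjoin ℚ (by
    rintro a ha b hb
    rw [Set.mem_singleton_iff] at ha hb
    rw [ha, hb])
  haveI : Module.Finite ℚ A := inferInstance
  haveI : IsArtinianRing A := IsArtinianRing.of_finite ℚ A
  let f' : A := ⟨toEnd f, Algebra.subset_adjoin rfl⟩
  obtain ⟨k, h, hk, hidem, hfit⟩ := exists_fitting f'
  set u : A := f' ^ k * h with hu
  -- `u` is zero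
  have hu0 : (u : End M) = 0 := by
    have hidem' : (show M ⟶ M from (u : End M)) ≫ (show M ⟶ M from (u : End M))
        = (show M ⟶ M from (u : End M)) := congrArg Subtype.val hidem
    obtain ⟨U, ι, π, hιπ, hπι⟩ := IsIdempotentComplete.idempotents_split M
      (show M ⟶ M from (u : End M)) hidem'
    -- `u = g ≫ f`
    obtain ⟨g, hg⟩ : ∃ g : M ⟶ M, (show M ⟶ M from (u : End M)) = g ≫ f := by
      obtain ⟨k', rfl⟩ : ∃ k', k = k' + 1 := ⟨k - 1, by omega⟩
      refine ⟨(show M ⟶ M from ((f' ^ k' * h : A) : End M)), ?_⟩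
      have h1 : u = f' * (f' ^ k' * h) := by rw [hu]; ring
      rw [h1]; rfl
    have htr : ∀ n : ℕ, catTrace (D.Fr U ^ n : End U) = 0 := by
      intro n
      have h1 : (D.Fr U ^ n : End U) = ι ≫ (D.Fr M ^ n : End M) ≫ π := by
        have h2 := D.pow_natural ι n
        rw [← Category.assoc, ← h2, Category.assoc, hιπ]
        exact (Category.comp_id _).symm
      have h3 : catTrace (ι ≫ (D.Fr M ^ n : End M) ≫ π)
          = catTrace ((show M ⟶ M from (u : End M)) ≫ (D.Fr M ^ n : End M)) := by
        rw [catTrace_comm, Category.assoc, hπι, catTrace_comm]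
      have h4 : catTrace ((show M ⟶ M from (u : End M)) ≫ (D.Fr M ^ n : End M))
          = catTrace (f ≫ ((D.Fr M ^ n : End M) ≫ g)) := by
        rw [hg, Category.assoc, catTrace_comm, Category.assoc]
      rw [h1, h3, h4, hf]
    have hz : IsZero U := by
      apply D.isZero_of_char hq
      have h1 : D.Ev U + 0 = 0 + D.Od U := by
        refine eq_of_psum fun n => ?_
        have h2 := D.lef U n (r := 0) (by rw [htr, zero_smul])
        rw [psum_add, psum_add, psum_zero]
        rw [Rat.cast_zero] at h2
        linear_combination -h2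
      exact split_eq (fun α => ∃ w : ℤ, ‖α‖ ^ 2 = q ^ (2 * w)) h1 (D.weight_even _)
        (by simp) (fun x hx => D.parity hq hx) (by simp)
    have h5 : (show M ⟶ M from (u : End M)) = 0 := by
      rw [← hπι, hz.eq_of_tgt π 0, zero_comp]
    exact h5
  refine ⟨k, ?_⟩
  have h6 : (f' ^ k : A) = 0 := by
    have : u = 0 := Subtype.ext hu0
    rw [← hfit, this, mul_zero]
  have h7 : toEnd f ^ k = 0 := congrArg Subtype.val h6
  rw [toEnd_pow] at h7
  exact h7

lemma betti_ses (D : FrobeniusStructure q C) (hq : 1 < q) {A B Q : C} {i : A ⟶ B} {p : B ⟶ Q}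
    (h : SES i p) : D.betti B = D.betti A + D.betti Q := by
  obtain ⟨h1, h2⟩ := D.char_ses hq h
  unfold betti
  rw [h1, h2, Multiset.card_add, Multiset.card_add]
  omega

lemma isZero_of_betti (D : FrobeniusStructure q C) (hq : 1 < q) {M : C} (h : D.betti M = 0) :
    IsZero M := by
  unfold betti at h
  exact D.isZero_of_char hq ⟨Multiset.card_eq_zero.1 (by omega), Multiset.card_eq_zero.1 (by omega)⟩

lemma iter_mono {M : C} (f : M ⟶ M) [Mono f] (n : ℕ) : Mono (iter f n) := by
  induction n with
  | zero => exact (inferInstance : Mono (𝟙 M))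
  | succ n ih => exact mono_comp f (iter f n)

lemma iter_zero_of_le {M : C} (f : M ⟶ M) {a b : ℕ} (hab : a ≤ b) (h : iter f a = 0) :
    iter f b = 0 := by
  induction hab with
  | refl => exact h
  | step _ ih => exact (congrArg (fun s => f ≫ s) ih).trans comp_zero

lemma iter_restrict {M J : C} (e : M ⟶ J) (m : J ⟶ M) (n : ℕ) :
    iter (m ≫ e) n ≫ m = m ≫ iter (e ≫ m) n := by
  induction n with
  | zero =>
    change 𝟙 J ≫ m = m ≫ 𝟙 M
    rw [Category.id_comp, Category.comp_id]
  | succ n ih =>
    change ((m ≫ e) ≫ iter (m ≫ e) n) ≫ m = m ≫ ((e ≫ m) ≫ iter (e ≫ m) n)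
    rw [Category.assoc, ih]
    simp only [Category.assoc]

/-- the nilpotency index is at most the number of eigenvalues. -/
theorem iter_betti (D : FrobeniusStructure q C) (hq : 1 < q) {M : C} (f : M ⟶ M)
    (hf : ∃ k, iter f k = 0) : iter f (D.betti M) = 0 := by
  obtain ⟨n, hn⟩ : ∃ n, D.betti M = n := ⟨_, rfl⟩
  induction n using Nat.strong_induction_on generalizing M with
  | _ n ih =>
    by_cases hz : IsZero M
    · exact hz.eq_of_src _ _
    · -- the image of `f`
      obtain ⟨J, e, m, he, hm, hfac⟩ : ∃ (J : C) (e : M ⟶ J) (m : J ⟶ M), Epi e ∧ Mono m ∧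
          e ≫ m = f :=
        ⟨_, Abelian.factorThruImage f, Abelian.image.ι f, inferInstance, inferInstance,
          Abelian.image.fac f⟩
      have hse := D.betti_ses hq (SES.of_epi e)
      -- `f` is not mono
      have hker : D.betti (kernel e) ≠ 0 := by
        intro h0
        have hk := D.isZero_of_betti hq h0
        haveI : Mono e := by
          rw [Preadditive.mono_iff_cancel_zero]
          intro T t ht
          rw [← kernel.lift_ι e t ht, hk.eq_of_tgt (kernel.lift e t ht) 0, zero_comp]
        haveI : Mono f := by rw [← hfac]; exact mono_comp _ _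
        obtain ⟨k, hk'⟩ := hf
        have h1 := iter_mono f k
        rw [hk'] at h1
        apply hz
        rw [IsZero.iff_id_eq_zero]
        exact (cancel_mono (0 : M ⟶ M)).1 (by rw [comp_zero, comp_zero])
      have hJnil : ∃ k, iter (m ≫ e) k = 0 := by
        obtain ⟨k, hk'⟩ := hf
        refine ⟨k, ?_⟩
        have h1 := iter_restrict e m k
        rw [hfac, hk', comp_zero] at h1
        exact (cancel_mono m).1 (by rw [zero_comp, h1])
      have hJ := ih (D.betti J) (by omega) (m ≫ e) hJnil rfl
      have h3 := iter_restrict e m (D.betti J)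
      rw [hJ, zero_comp, hfac] at h3
      have h4 : iter f (D.betti J + 1) = 0 := by
        change f ≫ iter f (D.betti J) = 0
        have h5 : f ≫ iter f (D.betti J) = e ≫ (m ≫ iter f (D.betti J)) := by
          rw [← Category.assoc, hfac]
        rw [h5, ← h3, comp_zero]
      exact iter_zero_of_le f (by omega) h4

/-- **Numerically trivial endomorphisms are nilpotent**, of index at most the number of
eigenvalues of Frobenius. -/
theorem iter_eq_zero_of_negligible (D : FrobeniusStructure q C) (hq : 1 < q) {M : C} (f : M ⟶ M)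
    (hf : ∀ g : M ⟶ M, catTrace (f ≫ g) = 0) : iter f (D.betti M) = 0 :=
  D.iter_betti hq f (D.exists_iter_eq_zero hq f hf)

end FrobeniusStructure

end Pool.Agent.Q303.CM
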