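import Pool.Agent.Q303.CM.MF

/-!
Objects on which Frobenius has distinct eigenvalues.
-/

set_option linter.style.haveILetI false
set_option linter.unusedSectionVars false

open CategoryTheory CategoryTheory.Limits MonoidalCategory ExactPairing BraidedCategory

open scoped TensorProduct Polynomial

universe v u

namespace Pool.Agent.Q303.CM

/-- linear independence of the sequences `α ^ n`. -/
lemma coeff_eq_zero (F : Finset ℂ) (c : ℂ → ℂ) (h : ∀ n : ℕ, ∑ α ∈ F, c α * α ^ n = 0) :
    ∀ α ∈ F, c α = 0 := by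
  have hli : LinearIndependent ℂ (fun α : ℂ => ((chi α : Multiplicative ℕ →* ℂ) :
      Multiplicative ℕ → ℂ)) :=
    (linearIndependent_monoidHom (Multiplicative ℕ) ℂ).comp chi chi_injective
  refine linearIndependent_iff'.1 hli F c ?_
  funext n
  have hn := h (Multiplicative.toAdd n)
  rw [Finset.sum_apply, Pi.zero_apply, ← hn]
  refine Finset.sum_congr rfl fun α _ => ?_
  simp only [Pi.smul_apply, smul_eq_mul, chi, powersHom_apply]

variable {C : Type u} [Category.{v} C] [Abelian C] [Linear ℚ C] [MonoidalCategory C]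
  [MonoidalPreadditive C] [MonoidalLinear ℚ C] [SymmetricCategory C] [RightRigidCategory C]
  {q : ℝ}

namespace FrobeniusStructure

/-- all the `Hom` spaces are finite-dimensional. -/
theorem finite_hom' (D : FrobeniusStructure q C) (hq : 1 < q) (M N : C) :
    Module.Finite ℚ (M ⟶ N) := by
  haveI := D.finite_hom hq (N ⊗ Mᘁ)
  let φ : (M ⟶ N) →ₗ[ℚ] (𝟙_ C ⟶ N ⊗ Mᘁ) :=
    { toFun := fun f => η_ M Mᘁ ≫ f ▷ Mᘁ
      map_add' := by intro f g; simp
      map_smul' := by
        intro r f
        simp only [MonoidalLinear.smul_whiskerRight, Linear.comp_smul, RingHom.id_apply] }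
  have hφ : Function.Injective φ := by
    intro f g hfg
    have hfg' : η_ M Mᘁ ≫ f ▷ Mᘁ = η_ M Mᘁ ≫ g ▷ Mᘁ := hfg
    have h5 : ∀ k : M ⟶ N, tensorRightHomEquiv (𝟙_ C) M Mᘁ N ((λ_ M).hom ≫ k)
        = η_ M Mᘁ ≫ k ▷ Mᘁ := by
      intro k
      simp only [tensorRightHomEquiv, Equiv.coe_fn_mk]
      monoidal
    have h7 : (λ_ M).hom ≫ f = (λ_ M).hom ≫ g := by
      apply (tensorRightHomEquiv (𝟙_ C) M Mᘁ N).injective
      rw [h5, h5, hfg']
    exact (cancel_epi (λ_ M).hom).1 h7
  exact Module.Finite.of_injective φ hφ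

/-- a polynomial in Frobenius. -/
noncomputable def pol (D : FrobeniusStructure q C) (M : C) (p : ℚ[X]) : M ⟶ M :=
  (Polynomial.aeval (D.Fr M) p : End M)

lemma pol_add (D : FrobeniusStructure q C) (M : C) (p r : ℚ[X]) :
    D.pol M (p + r) = D.pol M p + D.pol M r := by
  unfold pol; rw [map_add]

lemma pol_mul (D : FrobeniusStructure q C) (M : C) (p r : ℚ[X]) :
    D.pol M (p * r) = D.pol M r ≫ D.pol M p := by
  unfold pol; rw [map_mul]; rfl

lemma pol_monomial (D : FrobeniusStructure q C) (M : C) (n : ℕ) (a : ℚ) :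
    D.pol M (Polynomial.monomial n a) = a • (D.Fr M ^ n : End M) := by
  unfold pol; rw [Polynomial.aeval_monomial, ← Algebra.smul_def]

lemma pol_one (D : FrobeniusStructure q C) (M : C) : D.pol M 1 = 𝟙 M := by
  unfold pol; rw [map_one]; rfl

lemma pol_natural (D : FrobeniusStructure q C) {M N : C} (f : M ⟶ N) (p : ℚ[X]) :
    D.pol M p ≫ f = f ≫ D.pol N p := by
  induction p using Polynomial.induction_on' with
  | add p r hp hr =>
    rw [pol_add, pol_add, Preadditive.add_comp, Preadditive.comp_add, hp, hr]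
  | monomial n a =>
    rw [pol_monomial, pol_monomial, Linear.smul_comp, Linear.comp_smul]
    congr 1
    exact D.pow_natural f n

lemma trace_pol (D : FrobeniusStructure q C) (M : C) (p : ℚ[X]) :
    ∃ r : ℚ, catTrace (D.pol M p) = r • 𝟙 (𝟙_ C) ∧
      (r : ℂ) = ((D.Ev M).map (fun α => Polynomial.aeval α p)).sum
        - ((D.Od M).map (fun α => Polynomial.aeval α p)).sum := by
  induction p using Polynomial.induction_on' with
  | add p r hp hr =>
    obtain ⟨a, ha, ha'⟩ := hp
    obtain ⟨b, hb, hb'⟩ := hr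
    refine ⟨a + b, ?_, ?_⟩
    · rw [pol_add, catTrace_add, ha, hb, add_smul]
    · push_cast
      rw [ha', hb']
      simp only [map_add, Multiset.sum_map_add]
      ring
  | monomial n a =>
    obtain ⟨b, hb, hb'⟩ := D.lefschetz M n
    refine ⟨a * b, ?_, ?_⟩
    · rw [pol_monomial, catTrace_smul, hb, smul_smul]
    · push_cast
      rw [hb']
      simp only [Polynomial.aeval_monomial, Multiset.sum_map_mul_left]
      have : (algebraMap ℚ ℂ) a = (a : ℂ) := rfl
      rw [this]
      ring

/-- if a polynomial in Frobenius kills `M` then it vanishes at the eigenvalues. -/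
lemma aeval_eq_zero_of_pol (D : FrobeniusStructure q C) (hq : 1 < q) {M : C} {p : ℚ[X]}
    (h : D.pol M p = 0) {α : ℂ} (hα : α ∈ D.Ev M + D.Od M) : Polynomial.aeval α p = 0 := by
  classical
  set F : Finset ℂ := (D.Ev M).toFinset ∪ (D.Od M).toFinset with hF
  have hexp : ∀ (U : Multiset ℂ), U.toFinset ⊆ F → ∀ g : ℂ → ℂ,
      (U.map g).sum = ∑ α ∈ F, (U.count α : ℂ) * g α := by
    intro U hU g
    rw [Finset.sum_multiset_map_count]
    rw [Finset.sum_subset hU]
    · refine Finset.sum_congr rfl fun α _ => ?_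
      rw [nsmul_eq_mul]
    · intro x _ hx
      rw [Multiset.mem_toFinset, ← Multiset.count_eq_zero] at hx
      rw [hx, zero_smul]
  have hz := coeff_eq_zero F (fun α => (((D.Ev M).count α : ℂ) - (D.Od M).count α)
      * Polynomial.aeval α p) (by
    intro n
    obtain ⟨r, hr, hr'⟩ := D.trace_pol M (Polynomial.monomial n 1 * p)
    have h0 : D.pol M (Polynomial.monomial n 1 * p) = 0 := by
      rw [pol_mul, h, zero_comp]
    have h1 : catTrace (0 : M ⟶ M) = 0 := by
      have := catTrace_smul (0 : M ⟶ M) (0 : ℚ)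
      rw [zero_smul, zero_smul] at this
      exact this
    rw [h0, h1] at hr
    have hr0 : r = 0 := D.smul_inj (by rw [← hr, zero_smul])
    rw [hr0, hexp _ Finset.subset_union_left, hexp _ Finset.subset_union_right,
      ← Finset.sum_sub_distrib] at hr'
    rw [Rat.cast_zero] at hr'
    rw [hr']
    refine Finset.sum_congr rfl fun α _ => ?_
    rw [map_mul, Polynomial.aeval_monomial, map_one]
    ring)
  have hmem : α ∈ F := by
    rw [hF, Finset.mem_union, Multiset.mem_toFinset, Multiset.mem_toFinset]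
    exact Multiset.mem_add.1 hα
  have h2 := hz α hmem
  refine (mul_eq_zero.1 h2).resolve_left fun h6 => ?_
  rcases Multiset.mem_add.1 hα with h3 | h3
  · have h4 : (D.Od M).count α = 0 := by
      rw [Multiset.count_eq_zero]
      intro h5
      exact D.parity hq h5 (D.weight_even _ _ h3)
    rw [h4, Nat.cast_zero, sub_zero, Nat.cast_eq_zero] at h6
    exact (Multiset.count_pos.2 h3).ne' h6
  · have h4 : (D.Ev M).count α = 0 := by
      rw [Multiset.count_eq_zero]
      intro h5
      exact D.parity hq h3 (D.weight_even _ _ h5)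
    rw [h4, Nat.cast_zero, zero_sub, neg_eq_zero, Nat.cast_eq_zero] at h6
    exact (Multiset.count_pos.2 h3).ne' h6

/-- if an invertible polynomial in Frobenius vanishes at all the eigenvalues, the object is
zero. -/
lemma isZero_of_pol (D : FrobeniusStructure q C) (hq : 1 < q) {J : C} {p : ℚ[X]}
    (hiso : IsIso (D.pol J p)) (hp : ∀ α ∈ D.Ev J + D.Od J, Polynomial.aeval α p = 0) :
    IsZero J := by
  haveI := D.finite_hom' hq J J
  haveI : Module.Finite ℚ (End J) := D.finite_hom' hq J J
  -- the inverse is a polynomial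
  obtain ⟨g, hg⟩ : ∃ g : ℚ[X], D.pol J (p * g) = 𝟙 J := by
    let A : Subalgebra ℚ (End J) := (Polynomial.aeval (R := ℚ) (D.Fr J)).range
    have hA : Module.Finite ℚ A := inferInstance
    let a : A := ⟨Polynomial.aeval (D.Fr J) p, ⟨p, rfl⟩⟩
    let L : A →ₗ[ℚ] A := LinearMap.mulLeft ℚ a
    have hL : Function.Injective L := by
      rw [injective_iff_map_eq_zero]
      rintro ⟨x, hx⟩ hx0
      have h1 : (Polynomial.aeval (D.Fr J) p) * x = 0 := congrArg Subtype.val hx0
      have h2 : (show J ⟶ J from x) ≫ D.pol J p = 0 := h1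
      have h3 : (show J ⟶ J from x) = 0 := by
        have := congrArg (fun s => s ≫ inv (D.pol J p)) h2
        simpa using this
      exact Subtype.ext h3
    have hS := LinearMap.injective_iff_surjective.1 hL
    obtain ⟨⟨b, ⟨g, rfl⟩⟩, hb⟩ := hS 1
    refine ⟨g, ?_⟩
    have h1 := congrArg Subtype.val hb
    have h2 : Polynomial.aeval (D.Fr J) p * Polynomial.aeval (D.Fr J) g = (1 : End J) := h1
    unfold pol
    rw [map_mul, h2]
    rfl
  have hzero : ∀ n : ℕ, psum (D.Ev J) n = psum (D.Od J) n := by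
    intro n
    obtain ⟨r, hr, hr'⟩ := D.trace_pol J (Polynomial.monomial n 1 * (p * g))
    have h1 : D.pol J (Polynomial.monomial n 1 * (p * g)) = (D.Fr J ^ n : End J) := by
      rw [pol_mul, hg, Category.id_comp, pol_monomial, one_smul]
    rw [h1] at hr
    have h2 := D.lef J n hr
    have h3 : ∀ α ∈ D.Ev J + D.Od J,
        Polynomial.aeval α (Polynomial.monomial n 1 * (p * g)) = 0 := by
      intro α hα
      rw [map_mul, map_mul, hp α hα, zero_mul, mul_zero]
    have h4 : ((D.Ev J).map (fun α => Polynomial.aeval α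
        (Polynomial.monomial n 1 * (p * g)))).sum = 0 := by
      apply Multiset.sum_eq_zero
      intro x hx
      obtain ⟨α, hα, rfl⟩ := Multiset.mem_map.1 hx
      exact h3 α (Multiset.mem_add.2 (Or.inl hα))
    have h5 : ((D.Od J).map (fun α => Polynomial.aeval α
        (Polynomial.monomial n 1 * (p * g)))).sum = 0 := by
      apply Multiset.sum_eq_zero
      intro x hx
      obtain ⟨α, hα, rfl⟩ := Multiset.mem_map.1 hx
      exact h3 α (Multiset.mem_add.2 (Or.inr hα))
    rw [h4, h5, sub_zero] at hr'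
    rw [hr'] at h2
    linear_combination -h2
  have h1 : D.Ev J + 0 = 0 + D.Od J := by
    refine eq_of_psum fun n => ?_
    rw [psum_add, psum_add, psum_zero, add_zero, zero_add, hzero]
  have h3 := split_eq (fun α => ∃ w : ℤ, ‖α‖ ^ 2 = q ^ (2 * w)) h1 (D.weight_even _) (by simp)
    (fun x hx => D.parity hq hx) (by simp)
  exact D.isZero_of_char hq ⟨h3.1, h3.2⟩

/-- **Separable Frobenius**: if the eigenvalues are distinct, then a polynomial which vanishes at
all of them kills `M`. -/
theorem pol_eq_zero (D : FrobeniusStructure q C) (hq : 1 < q) {M : C}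
    (hn : (D.Ev M + D.Od M).Nodup) {p : ℚ[X]}
    (hp : ∀ α ∈ D.Ev M + D.Od M, Polynomial.aeval α p = 0) : D.pol M p = 0 := by
  classical
  set φ := D.pol M p with hφ
  obtain ⟨J, e, m, he, hm, hfac⟩ : ∃ (J : C) (e : M ⟶ J) (m : J ⟶ M), Epi e ∧ Mono m ∧
      e ≫ m = φ :=
    ⟨_, Abelian.factorThruImage φ, Abelian.image.ι φ, inferInstance, inferInstance,
      Abelian.image.fac φ⟩
  have hψ : D.pol J p = m ≫ e := by
    apply (cancel_mono m).1
    rw [D.pol_natural, Category.assoc, hfac]
  have hse := SES.of_epi e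
  obtain ⟨hE, hO⟩ := D.char_ses hq hse
  have hJz : IsZero J := by
    by_cases hmono : Mono (D.pol J p)
    · -- then it is an isomorphism
      have hs := SES.of_mono (D.pol J p)
      obtain ⟨h1, h2⟩ := D.char_ses hq hs
      have hc := D.isZero_of_char hq (M := cokernel (D.pol J p))
        ⟨left_eq_add.1 h1, left_eq_add.1 h2⟩
      haveI : Epi (D.pol J p) := by
        rw [Preadditive.epi_iff_cancel_zero]
        intro T t ht
        rw [← cokernel.π_desc (D.pol J p) t ht, hc.eq_of_src (cokernel.desc (D.pol J p) t ht) 0,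
          comp_zero]
      refine D.isZero_of_pol hq (isIso_of_mono_of_epi (D.pol J p)) fun α hα => hp α ?_
      rw [hE, hO]
      rcases Multiset.mem_add.1 hα with h | h
      · exact Multiset.mem_add.2 (Or.inl (Multiset.mem_add.2 (Or.inr h)))
      · exact Multiset.mem_add.2 (Or.inr (Multiset.mem_add.2 (Or.inr h)))
    · exfalso
      set l := kernel.ι (D.pol J p) with hl
      have hl0 : (l ≫ m) ≫ e = 0 := by
        rw [Category.assoc, ← hψ, kernel.condition]
      obtain ⟨k, hk⟩ := hse.lift _ hl0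
      haveI : Mono k := by
        haveI : Mono (k ≫ kernel.ι e) := by rw [hk]; exact mono_comp _ _
        exact mono_of_mono k (kernel.ι e)
      obtain ⟨a1, a2⟩ := D.char_ses hq (SES.of_mono k)
      obtain ⟨b1, b2⟩ := D.char_ses hq (SES.of_mono l)
      have hne : ¬ (D.Ev (kernel (D.pol J p)) = 0 ∧ D.Od (kernel (D.pol J p)) = 0) := by
        intro h0
        have hz := D.isZero_of_char hq h0
        apply hmono
        rw [Preadditive.mono_iff_cancel_zero]
        intro T t ht
        rw [← kernel.lift_ι (D.pol J p) t ht, hz.eq_of_tgt (kernel.lift (D.pol J p) t ht) 0,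
          zero_comp]
      rw [not_and_or] at hne
      rcases hne with h | h
      · obtain ⟨α, hα⟩ := Multiset.exists_mem_of_ne_zero h
        have h1 := (Multiset.nodup_iff_count_le_one.1 hn) α
        rw [hE, a1, b1] at h1
        simp only [Multiset.count_add] at h1
        have h2 := Multiset.count_pos.2 hα
        omega
      · obtain ⟨α, hα⟩ := Multiset.exists_mem_of_ne_zero h
        have h1 := (Multiset.nodup_iff_count_le_one.1 hn) α
        rw [hO, a2, b2] at h1
        simp only [Multiset.count_add] at h1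
        have h2 := Multiset.count_pos.2 hα
        omega
  rw [← hfac, hJz.eq_of_tgt e 0, zero_comp]

/-- the evaluation of polynomials at all the eigenvalues. -/
noncomputable def evAll (D : FrobeniusStructure q C) (M : C) :
    ℚ[X] →ₐ[ℚ] ({α : ℂ // α ∈ D.Ev M + D.Od M} → ℂ) :=
  Pi.algHom ℚ _ (fun α => Polynomial.aeval (α : ℂ))

lemma mem_ker_evAll (D : FrobeniusStructure q C) (M : C) (p : ℚ[X]) :
    p ∈ RingHom.ker (D.evAll M) ↔ ∀ α ∈ D.Ev M + D.Od M, Polynomial.aeval α p = 0 := by
  rw [RingHom.mem_ker]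
  constructor
  · intro h α hα
    exact congrArg (fun f => f ⟨α, hα⟩) h
  · intro h
    funext α
    exact h α α.2

/-- the algebra generated by Frobenius. -/
abbrev FrAlg (D : FrobeniusStructure q C) (M : C) : Type := ℚ[X] ⧸ RingHom.ker (D.evAll M)

/-- its action. -/
noncomputable def frAct (D : FrobeniusStructure q C) (hq : 1 < q) (M : C)
    (hn : (D.Ev M + D.Od M).Nodup) : D.FrAlg M →ₐ[ℚ] End M :=
  Ideal.Quotient.liftₐ (RingHom.ker (D.evAll M)) (Polynomial.aeval (D.Fr M))
    (fun p hp => D.pol_eq_zero hq hn ((D.mem_ker_evAll M p).1 hp))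

lemma frAct_mk (D : FrobeniusStructure q C) (hq : 1 < q) (M : C)
    (hn : (D.Ev M + D.Od M).Nodup) (p : ℚ[X]) :
    D.frAct hq M hn (Ideal.Quotient.mk _ p) = Polynomial.aeval (D.Fr M) p := rfl

lemma frAct_injective (D : FrobeniusStructure q C) (hq : 1 < q) (M : C)
    (hn : (D.Ev M + D.Od M).Nodup) : Function.Injective (D.frAct hq M hn) := by
  rw [injective_iff_map_eq_zero]
  intro x hx
  obtain ⟨p, rfl⟩ := Ideal.Quotient.mk_surjective x
  rw [Ideal.Quotient.eq_zero_iff_mem, mem_ker_evAll]
  intro α hα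
  exact D.aeval_eq_zero_of_pol hq hx hα

lemma frAlg_finite (D : FrobeniusStructure q C) (hq : 1 < q) (M : C)
    (hn : (D.Ev M + D.Od M).Nodup) : Module.Finite ℚ (D.FrAlg M) := by
  haveI : Module.Finite ℚ (End M) := D.finite_hom' hq M M
  exact Module.Finite.of_injective (D.frAct hq M hn).toLinearMap (D.frAct_injective hq M hn)

lemma frAlg_reduced (D : FrobeniusStructure q C) (M : C) : IsReduced (D.FrAlg M) :=
  isReduced_of_injective (RingHom.kerLift (D.evAll M).toRingHom)
    (RingHom.kerLift_injective (D.evAll M).toRingHom)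

/-- the characters of the algebra generated by Frobenius. -/
noncomputable def frChar (D : FrobeniusStructure q C) (M : C)
    (α : {α : ℂ // α ∈ D.Ev M + D.Od M}) : D.FrAlg M →ₐ[ℚ] ℂ :=
  Ideal.Quotient.liftₐ (RingHom.ker (D.evAll M)) (Polynomial.aeval (α : ℂ))
    (fun p hp => (D.mem_ker_evAll M p).1 hp α α.2)

lemma frChar_mk (D : FrobeniusStructure q C) (M : C)
    (α : {α : ℂ // α ∈ D.Ev M + D.Od M}) (p : ℚ[X]) :
    D.frChar M α (Ideal.Quotient.mk _ p) = Polynomial.aeval (α : ℂ) p := rfl

lemma frChar_injective (D : FrobeniusStructure q C) (M : C) :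
    Function.Injective (D.frChar M) := by
  intro α β h
  have h1 : D.frChar M α (Ideal.Quotient.mk _ Polynomial.X)
      = D.frChar M β (Ideal.Quotient.mk _ Polynomial.X) := by rw [h]
  rw [frChar_mk, frChar_mk, Polynomial.aeval_X, Polynomial.aeval_X] at h1
  exact Subtype.ext h1

open Classical in
/-- the multiplicity free action of the algebra generated by Frobenius. -/
noncomputable def frMF (D : FrobeniusStructure q C) (hq : 1 < q) (M : C)
    (hpure : D.Ev M = 0 ∨ D.Od M = 0) (hn : (D.Ev M + D.Od M).Nodup) :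
    MFAction D M (D.FrAlg M) where
  ρ := D.frAct hq M hn
  σ := if D.Od M = 0 then 1 else -1
  S := ((D.Ev M + D.Od M).attach.toFinset).map ⟨D.frChar M, D.frChar_injective M⟩
  trace_eq := by
    intro x
    obtain ⟨p, rfl⟩ := Ideal.Quotient.mk_surjective x
    obtain ⟨r, hr, hr'⟩ := D.trace_pol M p
    refine ⟨r, hr, ?_⟩
    rw [hr', Finset.sum_map]
    have h1 : ∑ α ∈ (D.Ev M + D.Od M).attach.toFinset,
        (D.frChar M α) (Ideal.Quotient.mk _ p)
        = ((D.Ev M + D.Od M).map (fun α => Polynomial.aeval α p)).sum := by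
      rw [Finset.sum, Multiset.toFinset_val,
        Multiset.dedup_eq_self.2 (Multiset.nodup_attach.2 hn)]
      rw [← Multiset.attach_map_val' (D.Ev M + D.Od M) (fun α => Polynomial.aeval α p)]
      rfl
    have h3 : ∑ α ∈ (D.Ev M + D.Od M).attach.toFinset,
        ((⟨D.frChar M, D.frChar_injective M⟩ :
          {α // α ∈ D.Ev M + D.Od M} ↪ (D.FrAlg M →ₐ[ℚ] ℂ)) α) (Ideal.Quotient.mk _ p)
        = ((D.Ev M + D.Od M).map (fun α => Polynomial.aeval α p)).sum := h1
    rw [h3]
    rcases hpure with h0 | h0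
    · by_cases h4 : D.Od M = 0
      · simp [h0, h4]
      · simp [h0, h4]
    · simp [h0]
  pure := hpure

end FrobeniusStructure

end Pool.Agent.Q303.CM
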