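import Pool.Agent.Q303.CM.Sep

/-!
Numerically trivial cycles on products of motives with separable Frobenius.
-/

set_option linter.style.haveILetI false
set_option linter.unusedSectionVars false

open CategoryTheory CategoryTheory.Limits MonoidalCategory ExactPairing BraidedCategory

open scoped TensorProduct

universe v u

namespace Pool.Agent.Q303.CM

variable {C : Type u} [Category.{v} C] [Abelian C] [Linear ℚ C] [MonoidalCategory C]
  [MonoidalPreadditive C] [MonoidalLinear ℚ C] [SymmetricCategory C] [RightRigidCategory C]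
  {q : ℝ}

namespace FrobeniusStructure

/-- The smallest class of objects which contains the objects of pure parity on whose cohomology the
eigenvalues of Frobenius are pairwise distinct, and is closed under tensor products, direct sums and
direct summands. -/
inductive SeparableType (D : FrobeniusStructure q C) : C → Prop
  | base (T : C) (hpure : D.Ev T = 0 ∨ D.Od T = 0) (hsep : (D.Ev T + D.Od T).Nodup) :
      SeparableType D T
  | tensor (S T : C) (hS : SeparableType D S) (hT : SeparableType D T) : SeparableType D (S ⊗ T)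
  | biprod (S T : C) (hS : SeparableType D S) (hT : SeparableType D T) : SeparableType D (S ⊞ T)
  | summand (S T : C) (i : S ⟶ T) (p : T ⟶ S) (h : i ≫ p = 𝟙 S) (hT : SeparableType D T) :
      SeparableType D S

/-- the endomorphisms which factor through sums of objects with a multiplicity free action. -/
def mfSpan (D : FrobeniusStructure q C) (T : C) : Submodule ℚ (T ⟶ T) :=
  Submodule.span ℚ {f : T ⟶ T | ∃ (S : C) (E : Type) (_ : CommRing E) (_ : Algebra ℚ E)
    (_ : Module.Finite ℚ E) (_ : IsReduced E) (_ : MFAction D S E)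
    (a : T ⟶ S) (b : S ⟶ T), f = a ≫ b}

lemma mfSpan_conj (D : FrobeniusStructure q C) {S T : C} (a : T ⟶ S) (b : S ⟶ T) {f : S ⟶ S}
    (hf : f ∈ mfSpan D S) : a ≫ f ≫ b ∈ mfSpan D T := by
  refine Submodule.span_induction ?_ ?_ ?_ ?_ hf
  · rintro _ ⟨U, E, i1, i2, i3, i4, e, c, d, rfl⟩
    exact Submodule.subset_span ⟨U, E, i1, i2, i3, i4, e, a ≫ c, d ≫ b, by simp⟩
  · simp
  · rintro x y _ _ hx hy
    rw [Preadditive.add_comp, Preadditive.comp_add]
    exact Submodule.add_mem _ hx hy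
  · rintro r x _ hx
    rw [Linear.smul_comp, Linear.comp_smul]
    exact Submodule.smul_mem _ _ hx

lemma mfSpan_tensor (D : FrobeniusStructure q C) (hq : 1 < q) {S T : C} {f : S ⟶ S}
    (hf : f ∈ mfSpan D S) {g : T ⟶ T} (hg : g ∈ mfSpan D T) : f ⊗ₘ g ∈ mfSpan D (S ⊗ T) := by
  refine Submodule.span_induction ?_ ?_ ?_ ?_ hf
  · rintro _ ⟨U, E, i1, i2, i3, i4, e, a, b, rfl⟩
    refine Submodule.span_induction ?_ ?_ ?_ ?_ hg
    · rintro _ ⟨V, F, j1, j2, j3, j4, e', c, d, rfl⟩
      haveI := unramified_of_isReduced E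
      haveI := unramified_of_isReduced F
      haveI : Algebra.FormallyUnramified ℚ (E ⊗[ℚ] F) :=
        Algebra.FormallyUnramified.comp ℚ E (E ⊗[ℚ] F)
      have hred : IsReduced (E ⊗[ℚ] F) := Algebra.FormallyUnramified.isReduced_of_field ℚ _
      refine Submodule.subset_span ⟨U ⊗ V, E ⊗[ℚ] F, inferInstance, inferInstance, inferInstance,
        hred, e.tensor hq e', a ⊗ₘ c, b ⊗ₘ d, ?_⟩
      rw [tensorHom_comp_tensorHom]
    · simp
    · rintro x y _ _ hx hy
      rw [MonoidalPreadditive.tensor_add]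
      exact Submodule.add_mem _ hx hy
    · rintro r x _ hx
      have : ((a ≫ b) ⊗ₘ (r • x)) = r • ((a ≫ b) ⊗ₘ x) := by
        rw [MonoidalCategory.tensorHom_def, MonoidalCategory.tensorHom_def,
          MonoidalLinear.whiskerLeft_smul, Linear.comp_smul]
      rw [this]
      exact Submodule.smul_mem _ _ hx
  · simp
  · rintro x y _ _ hx hy
    rw [MonoidalPreadditive.add_tensor]
    exact Submodule.add_mem _ hx hy
  · rintro r x _ hx
    have : ((r • x) ⊗ₘ g) = r • (x ⊗ₘ g) := by
      rw [MonoidalCategory.tensorHom_def, MonoidalCategory.tensorHom_def,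
        MonoidalLinear.smul_whiskerRight, Linear.smul_comp]
    rw [this]
    exact Submodule.smul_mem _ _ hx

theorem SeparableType.id_mem {D : FrobeniusStructure q C} (hq : 1 < q) {T : C}
    (h : SeparableType D T) : 𝟙 T ∈ mfSpan D T := by
  induction h with
  | base T hpure hsep =>
    exact Submodule.subset_span ⟨T, D.FrAlg T, inferInstance, inferInstance,
      D.frAlg_finite hq T hsep, D.frAlg_reduced T, D.frMF hq T hpure hsep, 𝟙 T, 𝟙 T, by simp⟩
  | tensor S T _ _ ihS ihT =>
    rw [← id_tensorHom_id]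
    exact D.mfSpan_tensor hq ihS ihT
  | biprod S T _ _ ihS ihT =>
    have h1 := D.mfSpan_conj (biprod.fst : S ⊞ T ⟶ S) biprod.inl ihS
    have h2 := D.mfSpan_conj (biprod.snd : S ⊞ T ⟶ T) biprod.inr ihT
    have h3 : 𝟙 (S ⊞ T) = biprod.fst ≫ 𝟙 S ≫ biprod.inl + biprod.snd ≫ 𝟙 T ≫ biprod.inr := by
      rw [Category.id_comp, Category.id_comp, biprod.total]
    rw [h3]
    exact Submodule.add_mem _ h1 h2
  | summand S T i p h _ ihT =>
    have h1 := D.mfSpan_conj i p ihT
    rw [Category.id_comp, h] at h1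
    exact h1

/-- **Numerically trivial cycles on objects of separable type vanish.** -/
theorem SeparableType.zero_of_numTriv {D : FrobeniusStructure q C} (hq : 1 < q) {T : C}
    (h : SeparableType D T) (z : 𝟙_ C ⟶ T) (hz : ∀ w : T ⟶ 𝟙_ C, z ≫ w = 0) : z = 0 := by
  have key : ∀ f ∈ mfSpan D T, z ≫ f = 0 := by
    intro f hf
    refine Submodule.span_induction ?_ ?_ ?_ ?_ hf
    · rintro _ ⟨S, E, i1, i2, i3, i4, e, a, b, rfl⟩
      have h1 : z ≫ a = 0 := by
        refine e.zero_of_numTriv hq (z ≫ a) fun w => ?_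
        rw [Category.assoc]
        exact hz _
      rw [← Category.assoc, h1, zero_comp]
    · simp
    · rintro x y _ _ hx hy
      rw [Preadditive.comp_add, hx, hy, add_zero]
    · rintro r x _ hx
      rw [Linear.comp_smul, hx, smul_zero]
  rw [← key _ (h.id_mem hq), Category.comp_id]

/-- **Numerically trivial morphisms vanish.** -/
theorem SeparableType.zero_of_negligible {D : FrobeniusStructure q C} (hq : 1 < q) {M N : C}
    (h : SeparableType D (N ⊗ Mᘁ)) (f : M ⟶ N) (hf : ∀ g : N ⟶ M, catTrace (f ≫ g) = 0) :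
    f = 0 := by
  have h1 : η_ M Mᘁ ≫ f ▷ Mᘁ = 0 := by
    refine h.zero_of_numTriv hq _ fun w => ?_
    letI := exactPairing_swap M (Mᘁ)
    set g' : N ⟶ 𝟙_ C ⊗ M := tensorRightHomEquiv N (Mᘁ) M (𝟙_ C) w with hg'
    have hw : w = (g' ≫ (λ_ M).hom) ▷ Mᘁ ≫ (β_ M Mᘁ).hom ≫ ε_ M Mᘁ := by
      have h2 : w = (tensorRightHomEquiv N (Mᘁ) M (𝟙_ C)).symm g' := by
        rw [hg', Equiv.symm_apply_apply]
      have h3 : (tensorRightHomEquiv N (Mᘁ) M (𝟙_ C)).symm g' =
          g' ▷ Mᘁ ≫ (α_ (𝟙_ C) M Mᘁ).hom ≫ (𝟙_ C) ◁ ((β_ M Mᘁ).hom ≫ ε_ M Mᘁ)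
            ≫ (ρ_ (𝟙_ C)).hom := rfl
      rw [h2, h3]
      monoidal
    have h4 := hf (g' ≫ (λ_ M).hom)
    rw [hw, Category.assoc, ← comp_whiskerRight_assoc]
    exact h4
  have h5 : tensorRightHomEquiv (𝟙_ C) M Mᘁ N ((λ_ M).hom ≫ f) = η_ M Mᘁ ≫ f ▷ Mᘁ := by
    simp only [tensorRightHomEquiv, Equiv.coe_fn_mk]
    monoidal
  have h6 : tensorRightHomEquiv (𝟙_ C) M Mᘁ N 0 = 0 := by
    simp [tensorRightHomEquiv]
  have h7 : (λ_ M).hom ≫ f = 0 := by
    apply (tensorRightHomEquiv (𝟙_ C) M Mᘁ N).injective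
    rw [h5, h6, h1]
  exact (cancel_epi (λ_ M).hom).1 (by rw [h7, comp_zero])

end FrobeniusStructure

end Pool.Agent.Q303.CM
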