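import Pool.Agent.Q303.CM.Unit

/-!
Additivity of the categorical trace on short exact sequences.
-/

set_option linter.style.haveILetI false
set_option linter.unusedSectionVars false

open CategoryTheory CategoryTheory.Limits MonoidalCategory ExactPairing BraidedCategory

universe v u

namespace Pool.Agent.Q303.CM

section Defs

variable {C : Type u} [Category.{v} C] [MonoidalCategory C]
  [BraidedCategory C] [RightRigidCategory C]

/-- the evaluation on `M ⊗ Mᘁ`. -/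
noncomputable def ev' (M : C) : M ⊗ Mᘁ ⟶ 𝟙_ C := (β_ M Mᘁ).hom ≫ ε_ M Mᘁ

/-- the categorical trace of an endomorphism. -/
noncomputable def catTrace {M : C} (f : M ⟶ M) : 𝟙_ C ⟶ 𝟙_ C :=
  η_ M Mᘁ ≫ f ▷ Mᘁ ≫ (β_ M Mᘁ).hom ≫ ε_ M Mᘁ

end Defs

variable {C : Type u} [Category.{v} C] [Abelian C] [MonoidalCategory C]
  [MonoidalPreadditive C] [BraidedCategory C] [RightRigidCategory C]

lemma ev'_mate {A B : C} (f : A ⟶ B) : (f ▷ Bᘁ) ≫ ev' B = (A ◁ fᘁ) ≫ ev' A := by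
  unfold ev'
  rw [braiding_naturality_left_assoc, ← rightAdjointMate_comp_evaluation,
    braiding_naturality_right_assoc]

variable {A B Q : C} {i : A ⟶ B} {p : B ⟶ Q}

/-- the map `B ⊗ Bᘁ ⟶ Q ⊗ Aᘁ`. -/
noncomputable def um (i : A ⟶ B) (p : B ⟶ Q) : B ⊗ Bᘁ ⟶ Q ⊗ Aᘁ := (p ▷ Bᘁ) ≫ (Q ◁ iᘁ)

lemma um_left (h : SES i p) : (i ▷ Bᘁ) ≫ um i p = 0 := by
  unfold um
  rw [← Category.assoc, ← comp_whiskerRight, h.zero]
  simp

lemma um_right (h : SES i p) : (B ◁ pᘁ) ≫ um i p = 0 := by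
  unfold um
  rw [whisker_exchange_assoc, ← whiskerLeft_comp, h.dual.zero]
  simp

lemma um_desc (h : SES i p) : biprod.desc (i ▷ Bᘁ) (B ◁ pᘁ) ≫ um i p = 0 := by
  apply biprod.hom_ext'
  · simp [um_left h]
  · simp [um_right h]

lemma um_exact (h : SES i p) :
    (ShortComplex.mk (biprod.desc (i ▷ Bᘁ) (B ◁ pᘁ)) (um i p) (um_desc h)).Exact := by
  haveI := h.epi
  haveI := h.dual_epi
  haveI : Epi (um i p) := by unfold um; exact epi_comp _ _
  refine ShortComplex.exact_of_g_is_cokernel _ ?_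
  refine CokernelCofork.IsColimit.ofπ' _ _ (fun {T} t ht => ?_)
  have h1 : (i ▷ Bᘁ) ≫ t = 0 := by
    have := congrArg (fun s => biprod.inl ≫ s) ht
    simpa using this
  have h2 : (B ◁ pᘁ) ≫ t = 0 := by
    have := congrArg (fun s => biprod.inr ≫ s) ht
    simpa using this
  have e1 := (h.whR Bᘁ).desc t h1
  have h3 : (Q ◁ pᘁ) ≫ e1.choose = 0 := by
    apply (cancel_epi (p ▷ Qᘁ)).1
    rw [← whisker_exchange_assoc, e1.choose_spec, h2, comp_zero]
  have e2 := (h.dual.whL Q).desc e1.choose h3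
  refine ⟨e2.choose, ?_⟩
  change um i p ≫ e2.choose = t
  unfold um
  rw [Category.assoc, e2.choose_spec, e1.choose_spec]

lemma um_jointly_epi (h : SES i p) {T : C} (s t : kernel (um i p) ⟶ T)
    (h1 : kernel.lift (um i p) (i ▷ Bᘁ) (um_left h) ≫ s
      = kernel.lift (um i p) (i ▷ Bᘁ) (um_left h) ≫ t)
    (h2 : kernel.lift (um i p) (B ◁ pᘁ) (um_right h) ≫ s
      = kernel.lift (um i p) (B ◁ pᘁ) (um_right h) ≫ t) : s = t := by
  have he := (ShortComplex.exact_iff_epi_kernel_lift _).1 (um_exact h)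
  change Epi (kernel.lift (um i p) (biprod.desc (i ▷ Bᘁ) (B ◁ pᘁ)) (um_desc h)) at he
  refine (cancel_epi (kernel.lift (um i p) (biprod.desc (i ▷ Bᘁ) (B ◁ pᘁ)) (um_desc h))).1 ?_
  apply biprod.hom_ext'
  · have : (biprod.inl : A ⊗ Bᘁ ⟶ (A ⊗ Bᘁ) ⊞ (B ⊗ Qᘁ)) ≫
        kernel.lift (um i p) (biprod.desc (i ▷ Bᘁ) (B ◁ pᘁ)) (um_desc h) =
        kernel.lift (um i p) (i ▷ Bᘁ) (um_left h) := by
      apply (cancel_mono (kernel.ι (um i p))).1
      simp
    rw [← Category.assoc, this, h1, ← Category.assoc, this]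
  · have : (biprod.inr : B ⊗ Qᘁ ⟶ (A ⊗ Bᘁ) ⊞ (B ⊗ Qᘁ)) ≫
        kernel.lift (um i p) (biprod.desc (i ▷ Bᘁ) (B ◁ pᘁ)) (um_desc h) =
        kernel.lift (um i p) (B ◁ pᘁ) (um_right h) := by
      apply (cancel_mono (kernel.ι (um i p))).1
      simp
    rw [← Category.assoc, this, h2, ← Category.assoc, this]

/-- **Additivity of the trace.** -/
theorem catTrace_ses (h : SES i p) (a : A ⟶ A) (b : B ⟶ B) (c : Q ⟶ Q)
    (hab : a ≫ i = i ≫ b) (hbc : b ≫ p = p ≫ c) :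
    catTrace b = catTrace a + catTrace c := by
  haveI := h.mono
  haveI := h.epi
  haveI := h.dual_mono
  haveI := h.dual_epi
  set κ := kernel.ι (um i p) with hκ
  have hκ0 : κ ≫ um i p = 0 := kernel.condition _
  obtain ⟨rA, hrA⟩ := (h.whR Aᘁ).lift (κ ≫ B ◁ iᘁ) (by
    rw [Category.assoc, whisker_exchange]
    exact hκ0)
  obtain ⟨rQ, hrQ⟩ := (h.dual.whL Q).lift (κ ≫ p ▷ Bᘁ) (by
    rw [Category.assoc]
    exact hκ0)
  have hθ : (η_ B Bᘁ ≫ b ▷ Bᘁ) ≫ um i p = 0 := by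
    unfold um
    have : (η_ B Bᘁ ≫ b ▷ Bᘁ) ≫ p ▷ Bᘁ ≫ Q ◁ iᘁ
        = η_ B Bᘁ ≫ (B ◁ iᘁ) ≫ (p ≫ c) ▷ Aᘁ := by
      rw [whisker_exchange, Category.assoc, ← comp_whiskerRight_assoc, hbc]
    rw [this, coevaluation_comp_rightAdjointMate_assoc, ← comp_whiskerRight,
      ← Category.assoc i p c, h.zero]
    simp
  set θ := kernel.lift (um i p) (η_ B Bᘁ ≫ b ▷ Bᘁ) hθ with hθdef
  have hθκ : θ ≫ κ = η_ B Bᘁ ≫ b ▷ Bᘁ := kernel.lift_ι _ _ _
  have key : κ ≫ ev' B = rA ≫ ev' A + rQ ≫ ev' Q := by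
    apply um_jointly_epi h
    · have e1 : kernel.lift (um i p) (i ▷ Bᘁ) (um_left h) ≫ κ = i ▷ Bᘁ := kernel.lift_ι _ _ _
      have e2 : kernel.lift (um i p) (i ▷ Bᘁ) (um_left h) ≫ rA = A ◁ iᘁ := by
        apply (cancel_mono (i ▷ Aᘁ)).1
        rw [Category.assoc, hrA, ← Category.assoc, e1, whisker_exchange]
      have e3 : kernel.lift (um i p) (i ▷ Bᘁ) (um_left h) ≫ rQ = 0 := by
        apply (cancel_mono (Q ◁ pᘁ)).1
        rw [Category.assoc, hrQ, ← Category.assoc, e1, ← comp_whiskerRight, h.zero]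
        simp
      rw [Preadditive.comp_add, ← Category.assoc, e1, ← Category.assoc, e2, ← Category.assoc, e3,
        zero_comp, add_zero, ev'_mate]
    · have e1 : kernel.lift (um i p) (B ◁ pᘁ) (um_right h) ≫ κ = B ◁ pᘁ := kernel.lift_ι _ _ _
      have e2 : kernel.lift (um i p) (B ◁ pᘁ) (um_right h) ≫ rA = 0 := by
        apply (cancel_mono (i ▷ Aᘁ)).1
        rw [Category.assoc, hrA, ← Category.assoc, e1, ← whiskerLeft_comp, h.dual.zero]
        simp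
      have e3 : kernel.lift (um i p) (B ◁ pᘁ) (um_right h) ≫ rQ = p ▷ Qᘁ := by
        apply (cancel_mono (Q ◁ pᘁ)).1
        rw [Category.assoc, hrQ, ← Category.assoc, e1, whisker_exchange]
      rw [Preadditive.comp_add, ← Category.assoc, e1, ← Category.assoc, e2, ← Category.assoc, e3,
        zero_comp, zero_add, ev'_mate]
  have hA : θ ≫ rA = η_ A Aᘁ ≫ a ▷ Aᘁ := by
    apply (cancel_mono (i ▷ Aᘁ)).1
    rw [Category.assoc, hrA, ← Category.assoc, hθκ, Category.assoc, Category.assoc,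
      ← comp_whiskerRight, hab, ← whisker_exchange, coevaluation_comp_rightAdjointMate_assoc,
      comp_whiskerRight]
  have hQ : θ ≫ rQ = η_ Q Qᘁ ≫ c ▷ Qᘁ := by
    apply (cancel_mono (Q ◁ pᘁ)).1
    rw [Category.assoc, hrQ, ← Category.assoc, hθκ, Category.assoc, Category.assoc,
      ← comp_whiskerRight, hbc, ← whisker_exchange, coevaluation_comp_rightAdjointMate_assoc,
      comp_whiskerRight]
  have hf : ∀ (M : C) (f : M ⟶ M), catTrace f = (η_ M Mᘁ ≫ f ▷ Mᘁ) ≫ ev' M := by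
    intro M f
    simp only [catTrace, ev', Category.assoc]
  rw [hf, hf, hf, ← hA, ← hQ, ← hθκ, Category.assoc, key, Preadditive.comp_add, Category.assoc,
    Category.assoc]

end Pool.Agent.Q303.CM
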