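import Pool.Agent.Q303.CM.Basic

/-!
The unit object of a rigid braided abelian category with `End 𝟙` a division
ring is simple.
-/

set_option linter.style.haveILetI false
set_option linter.unusedSectionVars false

open CategoryTheory CategoryTheory.Limits MonoidalCategory ExactPairing BraidedCategory

universe v u

namespace Pool.Agent.Q303.CM

variable {C : Type u} [Category.{v} C] [Abelian C] [MonoidalCategory C]
  [MonoidalPreadditive C] [BraidedCategory C] [RightRigidCategory C]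

/-- the map `𝟙 ⟶ Uᘁ` given by a map `j : U ⟶ 𝟙`. -/
noncomputable def qm {U : C} (j : U ⟶ 𝟙_ C) : 𝟙_ C ⟶ Uᘁ :=
  η_ U Uᘁ ≫ j ▷ Uᘁ ≫ (λ_ (Uᘁ)).hom

lemma qm_eval {U : C} (j : U ⟶ 𝟙_ C) : (qm j ▷ U) ≫ ε_ U Uᘁ = (λ_ U).hom ≫ j := by
  have h1 : (qm j ▷ U) ≫ ε_ U Uᘁ
      = η_ U Uᘁ ▷ U ≫ (α_ U (Uᘁ) U).hom ≫ (j ▷ ((Uᘁ : C) ⊗ U) ≫ 𝟙_ C ◁ ε_ U Uᘁ)
        ≫ (λ_ (𝟙_ C)).hom := by
    unfold qm
    monoidal
  rw [h1, ← whisker_exchange]
  have h2 : η_ U Uᘁ ▷ U ≫ (α_ U (Uᘁ) U).hom ≫ (U ◁ ε_ U Uᘁ ≫ j ▷ 𝟙_ C) ≫ (λ_ (𝟙_ C)).hom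
      = (η_ U Uᘁ ▷ U ≫ (α_ U (Uᘁ) U).hom ≫ U ◁ ε_ U Uᘁ) ≫ j ▷ 𝟙_ C ≫ (λ_ (𝟙_ C)).hom := by
    simp only [Category.assoc]
  rw [h2, evaluation_coevaluation]
  monoidal

lemma qm_epi {U : C} (j : U ⟶ 𝟙_ C) [Mono j] : Epi (qm j) := by
  rw [Preadditive.epi_iff_cancel_zero]
  intro T t ht
  apply nm_inj
  have h0 : nm (0 : Uᘁ ⟶ T) = 0 := by simp [nm]
  rw [h0]
  apply (cancel_mono (j ▷ T)).1
  rw [zero_comp]
  have h1 : nm t ≫ j ▷ T = (qm j ≫ t) ≫ (λ_ T).inv := by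
    unfold nm qm
    rw [Category.assoc, whisker_exchange]
    simp
  rw [h1, ht, zero_comp]

lemma isZero_tensor_comm {X Y : C} (h : IsZero (X ⊗ Y)) : IsZero (Y ⊗ X) :=
  h.of_iso (β_ Y X)

lemma qm_whL_mono {U : C} (j : U ⟶ 𝟙_ C) [Mono j] : Mono (U ◁ qm j) := by
  set k := kernel.ι (qm j) with hk
  have h1 : (k ▷ U) ≫ (λ_ U).hom ≫ j = 0 := by
    rw [← qm_eval, ← Category.assoc, ← comp_whiskerRight, kernel.condition]
    simp
  have h2 : k ▷ U = 0 := by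
    have h3 : ((k ▷ U) ≫ (λ_ U).hom) = 0 := (cancel_mono j).1 (by
      rw [Category.assoc, h1, zero_comp])
    exact (cancel_mono (λ_ U).hom).1 (by rw [h3, zero_comp])
  have h4 : IsZero (kernel (qm j) ⊗ U) := by
    rw [IsZero.iff_id_eq_zero]
    apply (cancel_mono (k ▷ U)).1
    rw [h2, comp_zero, comp_zero]
  have h5 : IsZero (U ⊗ kernel (qm j)) := isZero_tensor_comm h4
  -- exactness
  have h6 : SES k (Abelian.factorThruImage (qm j)) := by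
    refine ⟨?_, ?_⟩
    · apply (cancel_mono (Abelian.image.ι (qm j))).1
      rw [Category.assoc, Abelian.image.fac, kernel.condition, zero_comp]
    · refine ShortComplex.ShortExact.mk' ?_ inferInstance inferInstance
      refine ShortComplex.exact_of_f_is_kernel _ ?_
      refine KernelFork.IsLimit.ofι' _ _ (fun {T} t ht => ?_)
      refine ⟨kernel.lift (qm j) t ?_, ?_⟩
      · rw [← Abelian.image.fac (qm j), ← Category.assoc, ht, zero_comp]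
      · exact kernel.lift_ι _ _ _
  have h7 := h6.whL U
  have h8 : Mono (U ◁ Abelian.factorThruImage (qm j)) := by
    rw [Preadditive.mono_iff_cancel_zero]
    intro T t ht
    obtain ⟨l, hl⟩ := h7.lift t ht
    rw [← hl, h5.eq_of_tgt l 0, zero_comp]
  have h9 : U ◁ qm j = U ◁ Abelian.factorThruImage (qm j) ≫ U ◁ Abelian.image.ι (qm j) := by
    rw [← whiskerLeft_comp, Abelian.image.fac]
  rw [h9]
  exact mono_comp _ _

lemma id_eq_zero_of_coev {U : C} (h : η_ U Uᘁ = 0) : 𝟙 U = 0 := by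
  have h1 := evaluation_coevaluation U (Uᘁ)
  rw [h, MonoidalPreadditive.zero_whiskerRight, zero_comp] at h1
  apply (cancel_epi (λ_ U).hom).1
  apply (cancel_mono (ρ_ U).inv).1
  rw [Category.comp_id, ← h1]
  simp

/-- the unit is simple. -/
theorem unit_simple (hE : ∀ e : 𝟙_ C ⟶ 𝟙_ C, e = 0 ∨ IsIso e) {U : C} (j : U ⟶ 𝟙_ C)
    [Mono j] : j = 0 ∨ IsIso j := by
  haveI := qm_whL_mono j
  haveI := qm_epi j
  haveI : IsIso (U ◁ qm j) := isIso_of_mono_of_epi _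
  rcases hE (η_ U Uᘁ ≫ inv (U ◁ qm j) ≫ (ρ_ U).hom ≫ j) with h | h
  · left
    have h1 : η_ U Uᘁ ≫ inv (U ◁ qm j) ≫ (ρ_ U).hom = 0 := by
      apply (cancel_mono j).1
      simpa using h
    have h2 : η_ U Uᘁ = 0 := by
      apply (cancel_mono (inv (U ◁ qm j) ≫ (ρ_ U).hom)).1
      rw [h1, zero_comp]
    have h3 := id_eq_zero_of_coev h2
    rw [← Category.id_comp j, h3, zero_comp]
  · right
    haveI : Epi j := by
      have h4 : Epi ((η_ U Uᘁ ≫ inv (U ◁ qm j) ≫ (ρ_ U).hom) ≫ j) := by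
        simpa using (inferInstance : Epi (η_ U Uᘁ ≫ inv (U ◁ qm j) ≫ (ρ_ U).hom ≫ j))
      exact epi_of_epi (η_ U Uᘁ ≫ inv (U ◁ qm j) ≫ (ρ_ U).hom) j
    exact isIso_of_mono_of_epi j

theorem mono_of_unit (hE : ∀ e : 𝟙_ C ⟶ 𝟙_ C, e = 0 ∨ IsIso e) {B : C} (z : 𝟙_ C ⟶ B)
    (hz : z ≠ 0) : Mono z := by
  rcases unit_simple hE (kernel.ι z) with h | h
  · rw [Preadditive.mono_iff_cancel_zero]
    intro T t ht
    rw [← kernel.lift_ι z t ht, h, comp_zero]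
  · exfalso
    apply hz
    apply (cancel_epi (kernel.ι z)).1
    rw [kernel.condition, comp_zero]

theorem epi_to_unit (hE : ∀ e : 𝟙_ C ⟶ 𝟙_ C, e = 0 ∨ IsIso e) {B : C} (z : B ⟶ 𝟙_ C)
    (hz : z ≠ 0) : Epi z := by
  rcases unit_simple hE (Abelian.image.ι z) with h | h
  · exfalso
    apply hz
    rw [← Abelian.image.fac z, h, comp_zero]
  · rw [← Abelian.image.fac z]
    exact epi_comp _ _

end Pool.Agent.Q303.CM
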